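import Pool.Agent.L7h73.RL.Sch

/-!
# Closed finite families of simple objects

If a finite family of simple objects is closed under `O* ⊗ O ⊗ _` then the energies of the powers
of `O` are bounded from below.
-/

set_option autoImplicit false

namespace Pool.Agent.L7h73.RL

open Finset
open Pool.Agent.L7h85.RL

universe u

variable {Ob : Type u} {𝒮 : Sys Ob}

lemma eqv_ten {A B : Ob} (C : Ob) (h : 𝒮.Eqv A B) : 𝒮.Eqv (𝒮.ten C A) (𝒮.ten C B) := by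
  intro X
  rw [h_ten_left, h_ten_left, h]

lemma eqv_it (O Y : Ob) (n : ℕ) : 𝒮.Eqv (𝒮.it O Y (n + 1)) (𝒮.ten (𝒮.pw O n) Y) := by
  induction n with
  | zero => intro X; rfl
  | succ n ih =>
    intro X
    have h1 := eqv_ten O ih X
    show 𝒮.h (𝒮.ten O (𝒮.it O Y (n + 1))) X = 𝒮.h (𝒮.ten (𝒮.ten O (𝒮.pw O n)) Y) X
    rw [h1, 𝒮.assoc]

lemma h_eqv {A B C D : Ob} (h : 𝒮.Eqv A B) (h' : 𝒮.Eqv C D) : 𝒮.h A C = 𝒮.h B D := by
  rw [h, 𝒮.h_symm, h', 𝒮.h_symm]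

theorem s_CLO (hR : S_REP.{u}) (hSCF : S_SCF.{u}) (hLOG : S_LOG.{u}) : S_CLO.{u} := by
  intro Ob 𝒮 O ι _ _ S hS hort hcl n
  classical
  obtain ⟨R⟩ := hR 𝒮
  set o := 𝒮.dim O with ho
  set D := ∑ i, 𝒮.dim (S i) ^ 2 with hD
  -- types of the objects
  have hty : ∀ i, ∃ k, R.v (S i) = Finsupp.single k 1 := fun i => Rp.simple R (hS i)
  choose τ hτ using hty
  have hτinj : Function.Injective τ := by
    intro i j hij
    by_contra hne
    have h1 := hort i j hne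
    rw [Rp.simple_h R (hτ j), hτ i, hij, Finsupp.single_eq_same] at h1
    exact one_ne_zero h1
  -- the full decomposition of `O* ⊗ O ⊗ S i`
  have hfull : ∀ i, ∑ j, 𝒮.h (S j) (𝒮.ten (𝒮.dual O) (𝒮.ten O (S i))) * 𝒮.dim (S j) =
      o ^ 2 * 𝒮.dim (S i) := by
    intro i
    set X := 𝒮.ten (𝒮.dual O) (𝒮.ten O (S i)) with hX
    have hdX : 𝒮.dim X = o ^ 2 * 𝒮.dim (S i) := by
      rw [hX, 𝒮.dim_ten, 𝒮.dim_ten, 𝒮.dim_dual, ho]; ring
    rw [← hdX]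
    have hsub : (R.v X).support ⊆ Finset.univ.image τ := by
      intro k hk
      rw [Finsupp.mem_support_iff, ← Rp.h_s, 𝒮.h_symm] at hk
      have h1 : 𝒮.h (R.s k) (R.s k) = 1 := by
        rw [Rp.h_s, R.v_s, Finsupp.single_eq_same]
      obtain ⟨j, hj⟩ := hcl i (R.s k) h1 hk
      rw [Rp.simple_h R (hτ j), R.v_s] at hj
      have h2 : k = τ j := by
        by_contra hne
        exact hj (Finsupp.single_eq_of_ne (fun h => hne h.symm))
      rw [h2]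
      exact Finset.mem_image_of_mem τ (Finset.mem_univ j)
    rw [Rp.dim_fin R X hsub, Finset.sum_image fun a _ b _ h => hτinj h]
    refine Finset.sum_congr rfl fun j _ => ?_
    rw [𝒮.h_symm, Rp.simple_h R (hτ j), Rp.simple_dim R (hτ j)]
  -- the energies of `f = ∑ dim (S i) S i`
  set U : ℕ → ℕ := fun n => ∑ i, ∑ j, 𝒮.dim (S i) * 𝒮.dim (S j) *
    𝒮.h (𝒮.it O (S i) n) (𝒮.it O (S j) n) with hU
  have hU0 : U 0 = D := by
    show ∑ i, ∑ j, 𝒮.dim (S i) * 𝒮.dim (S j) * 𝒮.h (S i) (S j) = D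
    rw [hD]
    refine Finset.sum_congr rfl fun i _ => ?_
    rw [Finset.sum_eq_single i]
    · rw [hS i]; ring
    · intro j _ hj
      rw [hort i j (Ne.symm hj), mul_zero]
    · intro h; exact absurd (Finset.mem_univ i) h
  have hU1 : U 1 = o ^ 2 * D := by
    show ∑ i, ∑ j, 𝒮.dim (S i) * 𝒮.dim (S j) * 𝒮.h (𝒮.ten O (S i)) (𝒮.ten O (S j)) = o ^ 2 * D
    rw [hD, Finset.mul_sum]
    refine Finset.sum_congr rfl fun i _ => ?_
    have h1 := hfull i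
    have h2 : ∀ j, 𝒮.h (𝒮.ten O (S i)) (𝒮.ten O (S j)) =
        𝒮.h (S j) (𝒮.ten (𝒮.dual O) (𝒮.ten O (S i))) := by
      intro j
      rw [← h_mv, 𝒮.h_symm]
    calc ∑ j, 𝒮.dim (S i) * 𝒮.dim (S j) * 𝒮.h (𝒮.ten O (S i)) (𝒮.ten O (S j))
        = 𝒮.dim (S i) *
          ∑ j, 𝒮.h (S j) (𝒮.ten (𝒮.dual O) (𝒮.ten O (S i))) * 𝒮.dim (S j) := by
          rw [Finset.mul_sum]
          exact Finset.sum_congr rfl fun j _ => by rw [h2]; ring
      _ = o ^ 2 * 𝒮.dim (S i) ^ 2 := by rw [h1]; ring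
  have hlog : ∀ n, U (n + 1) ^ 2 ≤ U n * U (n + 2) := fun n =>
    hLOG 𝒮 O ι (fun i => 𝒮.dim (S i)) S n
  have hDpos : 0 < D := by
    rw [hD]
    refine Finset.sum_pos (fun i _ => ?_) Finset.univ_nonempty
    have h1 : 0 < 𝒮.dim (S i) := by
      rw [Rp.simple_dim R (hτ i)]; exact R.dim_pos _
    positivity
  rcases Nat.eq_zero_or_pos o with h0 | h0
  · rw [h0]; simp
  have hgrow : ∀ n, 0 < U n ∧ o ^ 2 * U n ≤ U (n + 1) := by
    intro n
    induction n with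
    | zero => exact ⟨by rw [hU0]; exact hDpos, by rw [hU0, zero_add, hU1]⟩
    | succ n ih =>
      obtain ⟨ih1, ih2⟩ := ih
      have h1 : 0 < U (n + 1) := lt_of_lt_of_le (by positivity) ih2
      refine ⟨h1, ?_⟩
      have h2 := hlog n
      have h3 : U n * (o ^ 2 * U (n + 1)) ≤ U n * U (n + 2) := by
        calc U n * (o ^ 2 * U (n + 1)) = (o ^ 2 * U n) * U (n + 1) := by ring
          _ ≤ U (n + 1) * U (n + 1) := Nat.mul_le_mul_right _ ih2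
          _ = U (n + 1) ^ 2 := by ring
          _ ≤ U n * U (n + 2) := h2
      exact Nat.le_of_mul_le_mul_left h3 ih1
  have hlow : ∀ n, o ^ (2 * n) * D ≤ U n := by
    intro n
    induction n with
    | zero => rw [hU0]; simp
    | succ n ih =>
      calc o ^ (2 * (n + 1)) * D = o ^ 2 * (o ^ (2 * n) * D) := by ring
        _ ≤ o ^ 2 * U n := Nat.mul_le_mul_left _ ih
        _ ≤ U (n + 1) := (hgrow n).2
  have hup : U (n + 1) ≤ D ^ 2 * 𝒮.h (𝒮.pw O n) (𝒮.pw O n) := by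
    have h1 := (hSCF 𝒮 (𝒮.pw O n) ι (fun i => 𝒮.dim (S i)) S).2
    have h2 : ∑ i, 𝒮.dim (S i) * 𝒮.dim (S i) = D := by
      rw [hD]; exact Finset.sum_congr rfl fun i _ => by ring
    rw [h2] at h1
    refine le_trans (le_of_eq ?_) h1
    show ∑ i, ∑ j, 𝒮.dim (S i) * 𝒮.dim (S j) *
      𝒮.h (𝒮.it O (S i) (n + 1)) (𝒮.it O (S j) (n + 1)) = _
    exact Finset.sum_congr rfl fun i _ => Finset.sum_congr rfl fun j _ => by
      rw [h_eqv (eqv_it O (S i) n) (eqv_it O (S j) n)]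
  have h5 : D * o ^ (2 * (n + 1)) ≤ D * (D * 𝒮.h (𝒮.pw O n) (𝒮.pw O n)) := by
    calc D * o ^ (2 * (n + 1)) = o ^ (2 * (n + 1)) * D := by ring
      _ ≤ U (n + 1) := hlow (n + 1)
      _ ≤ D ^ 2 * 𝒮.h (𝒮.pw O n) (𝒮.pw O n) := hup
      _ = D * (D * 𝒮.h (𝒮.pw O n) (𝒮.pw O n)) := by ring
  exact Nat.le_of_mul_le_mul_left h5 hDpos

end Pool.Agent.L7h73.RL
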