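import Pool.Agent.L7h85.RL.Stm

/-!
# The Schur test for systems of numbers of homomorphisms
-/

set_option autoImplicit false

namespace Pool.Agent.L7h73.RL

open Finset
open Pool.Agent.L7h85.RL

universe u

variable {Ob : Type u} {𝒮 : Sys Ob}

/-! ### Elementary identities -/

lemma h_ten_left (A B C : Ob) : 𝒮.h (𝒮.ten B A) C = 𝒮.h A (𝒮.ten C (𝒮.dual B)) := by
  rw [𝒮.comm, 𝒮.adj]

lemma h_ten_right (A B C : Ob) : 𝒮.h A (𝒮.ten C (𝒮.dual B)) = 𝒮.h (𝒮.ten B A) C :=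
  (h_ten_left A B C).symm

/-- `Hom (B ⊗ A, C) = Hom (A, B* ⊗ C)` -/
lemma h_mv (A B C : Ob) : 𝒮.h (𝒮.ten B A) C = 𝒮.h A (𝒮.ten (𝒮.dual B) C) := by
  rw [h_ten_left, 𝒮.h_symm A, 𝒮.comm, 𝒮.h_symm]

lemma h_ten_ten (A X Y : Ob) : 𝒮.h (𝒮.ten A X) (𝒮.ten A Y) =
    𝒮.h (𝒮.ten (𝒮.ten (𝒮.dual A) A) X) Y := by
  rw [𝒮.h_symm, h_mv, 𝒮.h_symm, 𝒮.assoc]

namespace Rp

variable (R : Rep 𝒮)

lemma h_s (A : Ob) (i : R.I) : 𝒮.h A (R.s i) = R.v A i := by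
  classical
  rw [R.h_eq, R.v_s]
  rw [Finsupp.sum, Finset.sum_eq_single i]
  · simp
  · intro j _ hj
    rw [Finsupp.single_eq_of_ne hj]; simp
  · intro hi
    rw [Finsupp.notMem_support_iff.1 hi]; simp

lemma h_fin (A B : Ob) {J : Finset R.I} (hJ : (R.v A).support ⊆ J) :
    𝒮.h A B = ∑ i ∈ J, R.v A i * R.v B i := by
  rw [R.h_eq, Finsupp.sum]
  refine Finset.sum_subset hJ fun i _ hi => ?_
  rw [Finsupp.notMem_support_iff.1 hi, zero_mul]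

lemma dim_fin (A : Ob) {J : Finset R.I} (hJ : (R.v A).support ⊆ J) :
    𝒮.dim A = ∑ i ∈ J, R.v A i * 𝒮.dim (R.s i) := by
  rw [R.dim_eq, Finsupp.sum]
  refine Finset.sum_subset hJ fun i _ hi => ?_
  rw [Finsupp.notMem_support_iff.1 hi, zero_mul]

lemma dim_sub (A : Ob) (J : Finset R.I) :
    ∑ i ∈ J, R.v A i * 𝒮.dim (R.s i) ≤ 𝒮.dim A := by
  classical
  rw [dim_fin R A (J := J ∪ (R.v A).support) subset_union_right]
  exact Finset.sum_le_sum_of_subset subset_union_left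

lemma v_swap (B : Ob) (i j : R.I) : R.v (𝒮.ten (R.s j) (𝒮.dual B)) i = R.v (𝒮.ten B (R.s i)) j := by
  rw [← h_s, ← h_s, 𝒮.h_symm, ← h_ten_left]

lemma v_ten (A B : Ob) {J : Finset R.I} (hJ : (R.v A).support ⊆ J) (j : R.I) :
    R.v (𝒮.ten B A) j = ∑ i ∈ J, R.v A i * R.v (𝒮.ten B (R.s i)) j := by
  rw [← h_s, h_ten_left, h_fin R A _ hJ]
  exact Finset.sum_congr rfl fun i _ => by rw [v_swap]

lemma simple {S : Ob} (h : 𝒮.h S S = 1) : ∃ i, R.v S = Finsupp.single i 1 := by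
  classical
  rw [h_fin R S S (Finset.Subset.refl _)] at h
  have hne : (R.v S).support.Nonempty := by
    by_contra h0
    rw [Finset.not_nonempty_iff_eq_empty] at h0
    rw [h0] at h; simp at h
  obtain ⟨i, hi⟩ := hne
  rw [← Finset.add_sum_erase _ _ hi] at h
  have h1 : 0 < R.v S i := Nat.pos_of_ne_zero (Finsupp.mem_support_iff.1 hi)
  have h2 : R.v S i = 1 := by
    have h3 : R.v S i * R.v S i ≤ 1 := by omega
    have h4 : R.v S i * 1 ≤ R.v S i * R.v S i := Nat.mul_le_mul_left _ h1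
    omega
  refine ⟨i, ?_⟩
  ext j
  by_cases hj : j = i
  · subst hj; simp [h2]
  · rw [Finsupp.single_eq_of_ne hj]
    by_contra hne
    have h3 : j ∈ (R.v S).support.erase i := Finset.mem_erase.2 ⟨hj, Finsupp.mem_support_iff.2 hne⟩
    have h4 := Finset.single_le_sum (f := fun x => R.v S x * R.v S x)
      (fun x _ => Nat.zero_le _) h3
    have h5 : 0 < R.v S j * R.v S j := Nat.mul_pos (Nat.pos_of_ne_zero hne)
      (Nat.pos_of_ne_zero hne)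
    rw [h2] at h
    have h6 : R.v S j * R.v S j ≤ ∑ x ∈ (R.v S).support.erase i, R.v S x * R.v S x := h4
    omega

lemma simple_h {S : Ob} {i : R.I} (h : R.v S = Finsupp.single i 1) (A : Ob) :
    𝒮.h A S = R.v A i := by
  rw [← h_s, R.h_eq, R.h_eq A (R.s i), h, R.v_s]

lemma simple_dim {S : Ob} {i : R.I} (h : R.v S = Finsupp.single i 1) :
    𝒮.dim S = 𝒮.dim (R.s i) := by
  rw [R.dim_eq, R.dim_eq (R.s i), h, R.v_s]

/-- the Schur test -/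
lemma schur (B : Ob) (J : Finset R.I) (m : R.I → ℕ) :
    ∑ i ∈ J, ∑ j ∈ J, m i * m j * R.v (𝒮.ten B (R.s i)) j ≤ 𝒮.dim B * ∑ i ∈ J, m i ^ 2 := by
  have hd : ∀ i, (0 : ℝ) < 𝒮.dim (R.s i) := fun i => by exact_mod_cast R.dim_pos i
  have h1 : ∀ i, ∑ j ∈ J, (R.v (𝒮.ten B (R.s i)) j : ℝ) * 𝒮.dim (R.s j) ≤
      𝒮.dim B * 𝒮.dim (R.s i) := by
    intro i
    have := dim_sub R (𝒮.ten B (R.s i)) J
    rw [𝒮.dim_ten] at this
    exact_mod_cast this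
  have h2 : ∀ j, ∑ i ∈ J, (R.v (𝒮.ten B (R.s i)) j : ℝ) * 𝒮.dim (R.s i) ≤
      𝒮.dim B * 𝒮.dim (R.s j) := by
    intro j
    have := dim_sub R (𝒮.ten (R.s j) (𝒮.dual B)) J
    rw [𝒮.dim_ten, 𝒮.dim_dual, mul_comm (𝒮.dim (R.s j))] at this
    refine le_trans (le_of_eq ?_) (by exact_mod_cast this :
      ((∑ i ∈ J, R.v (𝒮.ten (R.s j) (𝒮.dual B)) i * 𝒮.dim (R.s i) : ℕ) : ℝ) ≤
        𝒮.dim B * 𝒮.dim (R.s j))
    push_cast
    exact Finset.sum_congr rfl fun i _ => by rw [v_swap]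
  have h3 : ∀ i j, (m i : ℝ) * m j * R.v (𝒮.ten B (R.s i)) j ≤
      ((m i : ℝ) ^ 2 / 𝒮.dim (R.s i) * (R.v (𝒮.ten B (R.s i)) j * 𝒮.dim (R.s j)) +
        (m j : ℝ) ^ 2 / 𝒮.dim (R.s j) * (R.v (𝒮.ten B (R.s i)) j * 𝒮.dim (R.s i))) / 2 := by
    intro i j
    have hi := hd i
    have hj := hd j
    have hN : (0 : ℝ) ≤ R.v (𝒮.ten B (R.s i)) j := Nat.cast_nonneg _
    set a : ℝ := (m i : ℝ)
    set b : ℝ := (m j : ℝ)
    set x : ℝ := (𝒮.dim (R.s i) : ℝ)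
    set y : ℝ := (𝒮.dim (R.s j) : ℝ)
    set N : ℝ := (R.v (𝒮.ten B (R.s i)) j : ℝ)
    have h4 : 0 ≤ N * ((a * y - b * x) ^ 2 / (x * y)) := by positivity
    have h5 : N * ((a * y - b * x) ^ 2 / (x * y)) =
        a ^ 2 / x * (N * y) + b ^ 2 / y * (N * x) - 2 * (a * b * N) := by
      field_simp
      ring
    linarith
  have h6 : ∑ i ∈ J, ∑ j ∈ J, (m i : ℝ) * m j * R.v (𝒮.ten B (R.s i)) j ≤
      𝒮.dim B * ∑ i ∈ J, (m i : ℝ) ^ 2 := by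
    refine (Finset.sum_le_sum fun i _ => Finset.sum_le_sum fun j _ => h3 i j).trans ?_
    simp only [← Finset.sum_div, Finset.sum_add_distrib]
    have e1 : ∑ i ∈ J, ∑ j ∈ J, (m i : ℝ) ^ 2 / 𝒮.dim (R.s i) *
        (R.v (𝒮.ten B (R.s i)) j * 𝒮.dim (R.s j)) ≤ 𝒮.dim B * ∑ i ∈ J, (m i : ℝ) ^ 2 := by
      rw [Finset.mul_sum]
      refine Finset.sum_le_sum fun i _ => ?_
      rw [← Finset.mul_sum]
      refine (mul_le_mul_of_nonneg_left (h1 i) (by have := hd i; positivity)).trans (le_of_eq ?_)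
      have := (hd i).ne'
      field_simp
    have e2 : ∑ i ∈ J, ∑ j ∈ J, (m j : ℝ) ^ 2 / 𝒮.dim (R.s j) *
        (R.v (𝒮.ten B (R.s i)) j * 𝒮.dim (R.s i)) ≤ 𝒮.dim B * ∑ i ∈ J, (m i : ℝ) ^ 2 := by
      rw [Finset.sum_comm, Finset.mul_sum]
      refine Finset.sum_le_sum fun j _ => ?_
      rw [← Finset.mul_sum]
      refine (mul_le_mul_of_nonneg_left (h2 j) (by have := hd j; positivity)).trans (le_of_eq ?_)
      have := (hd j).ne'
      field_simp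
    linarith
  exact_mod_cast h6

end Rp

theorem s_SCH (hR : S_REP.{u}) : S_SCH.{u} := by
  intro Ob 𝒮 A B
  obtain ⟨R⟩ := hR 𝒮
  have h1 := Rp.schur R B (R.v A).support (R.v A)
  rw [Rp.h_fin R A A (Finset.Subset.refl _)]
  have e1 : 𝒮.h (𝒮.ten B A) A = ∑ i ∈ (R.v A).support, ∑ j ∈ (R.v A).support,
      R.v A i * R.v A j * R.v (𝒮.ten B (R.s i)) j := by
    rw [𝒮.h_symm, Rp.h_fin R A _ (Finset.Subset.refl _), Finset.sum_comm]
    refine Finset.sum_congr rfl fun j _ => ?_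
    rw [Rp.v_ten R A B (Finset.Subset.refl _), Finset.mul_sum]
    exact Finset.sum_congr rfl fun i _ => by ring
  rw [e1]
  refine h1.trans (le_of_eq ?_)
  congr 1
  exact Finset.sum_congr rfl fun i _ => by ring

lemma sum4 {ι K M : Type*} [AddCommMonoid M] (I : Finset ι) (J : Finset K)
    (F : ι → ι → K → K → M) :
    ∑ i ∈ I, ∑ j ∈ I, ∑ k ∈ J, ∑ l ∈ J, F i j k l =
      ∑ k ∈ J, ∑ l ∈ J, ∑ i ∈ I, ∑ j ∈ I, F i j k l := by
  calc ∑ i ∈ I, ∑ j ∈ I, ∑ k ∈ J, ∑ l ∈ J, F i j k l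
      = ∑ i ∈ I, ∑ k ∈ J, ∑ j ∈ I, ∑ l ∈ J, F i j k l :=
        Finset.sum_congr rfl fun i _ => Finset.sum_comm
    _ = ∑ k ∈ J, ∑ i ∈ I, ∑ j ∈ I, ∑ l ∈ J, F i j k l := Finset.sum_comm
    _ = ∑ k ∈ J, ∑ i ∈ I, ∑ l ∈ J, ∑ j ∈ I, F i j k l :=
        Finset.sum_congr rfl fun k _ => Finset.sum_congr rfl fun i _ => Finset.sum_comm
    _ = ∑ k ∈ J, ∑ l ∈ J, ∑ i ∈ I, ∑ j ∈ I, F i j k l :=
        Finset.sum_congr rfl fun k _ => Finset.sum_comm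

lemma dsum {ι K : Type*} [Fintype ι] (J : Finset K) (a : ι → ℕ) (x : ι → K → ℕ)
    (N : K → K → ℕ) :
    ∑ i, ∑ j, a i * a j * (∑ k ∈ J, ∑ l ∈ J, x i k * x j l * N k l) =
      ∑ k ∈ J, ∑ l ∈ J, (∑ i, a i * x i k) * (∑ j, a j * x j l) * N k l := by
  have e1 : ∑ i, ∑ j, a i * a j * (∑ k ∈ J, ∑ l ∈ J, x i k * x j l * N k l) =
      ∑ i, ∑ j, ∑ k ∈ J, ∑ l ∈ J, a i * a j * (x i k * x j l * N k l) := by
    simp only [Finset.mul_sum]
  rw [e1, sum4]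
  refine Finset.sum_congr rfl fun k _ => Finset.sum_congr rfl fun l _ => ?_
  rw [Finset.sum_mul_sum, Finset.sum_mul]
  refine Finset.sum_congr rfl fun i _ => ?_
  rw [Finset.sum_mul]
  exact Finset.sum_congr rfl fun j _ => by ring

/-- the square of the norm of a vector -/
lemma norm_eq (R : Rep 𝒮) {ι : Type*} [Fintype ι] (a : ι → ℕ) (S : ι → Ob) (J : Finset R.I)
    (hJ : ∀ i, (R.v (S i)).support ⊆ J) :
    ∑ i, ∑ j, a i * a j * 𝒮.h (S i) (S j) = ∑ k ∈ J, (∑ i, a i * R.v (S i) k) ^ 2 := by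
  have e1 : ∀ i j, 𝒮.h (S i) (S j) = ∑ k ∈ J, R.v (S i) k * R.v (S j) k := fun i j =>
    Rp.h_fin R _ _ (hJ i)
  simp only [e1, Finset.mul_sum]
  rw [Finset.sum_congr rfl fun i _ => Finset.sum_comm, Finset.sum_comm]
  refine Finset.sum_congr rfl fun k _ => ?_
  rw [sq, Finset.sum_mul_sum]
  exact Finset.sum_congr rfl fun i _ => Finset.sum_congr rfl fun j _ => by ring

theorem s_SCF (hR : S_REP.{u}) : S_SCF.{u} := by
  intro Ob 𝒮 A ι _ a S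
  classical
  constructor
  · obtain ⟨R⟩ := hR 𝒮
    set J : Finset R.I := Finset.univ.biUnion fun i => (R.v (S i)).support with hJ
    have hsub : ∀ i, (R.v (S i)).support ⊆ J := fun i =>
      Finset.subset_biUnion_of_mem (fun i => (R.v (S i)).support) (Finset.mem_univ i)
    set m : R.I → ℕ := fun k => ∑ i, a i * R.v (S i) k with hm
    have h1 := Rp.schur R (𝒮.ten (𝒮.dual A) A) J m
    rw [𝒮.dim_ten, 𝒮.dim_dual] at h1
    have e1 : ∑ i, ∑ j, a i * a j * 𝒮.h (𝒮.ten A (S i)) (𝒮.ten A (S j)) =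
        ∑ k ∈ J, ∑ l ∈ J, m k * m l * R.v (𝒮.ten (𝒮.ten (𝒮.dual A) A) (R.s k)) l := by
      have e2 : ∀ i j, 𝒮.h (𝒮.ten A (S i)) (𝒮.ten A (S j)) =
          ∑ k ∈ J, ∑ l ∈ J, R.v (S i) k * R.v (S j) l *
            R.v (𝒮.ten (𝒮.ten (𝒮.dual A) A) (R.s k)) l := by
        intro i j
        rw [h_ten_ten, 𝒮.h_symm, Rp.h_fin R (S j) _ (hsub j), Finset.sum_comm]
        refine Finset.sum_congr rfl fun l _ => ?_
        rw [Rp.v_ten R (S i) _ (hsub i), Finset.mul_sum]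
        exact Finset.sum_congr rfl fun k _ => by ring
      simp only [e2]
      exact dsum J a (fun i k => R.v (S i) k) _
    rw [e1, norm_eq R a S J hsub]
    refine h1.trans (le_of_eq ?_)
    rw [hm]
    ring
  · have h2 := s_SCH hR 𝒮
    have e1 : ∀ i j, 𝒮.h (𝒮.ten A (S i)) (𝒮.ten A (S j)) ≤
        𝒮.dim (S i) * 𝒮.dim (S j) * 𝒮.h A A := by
      intro i j
      have e2 : 𝒮.h (𝒮.ten A (S i)) (𝒮.ten A (S j)) =
          𝒮.h (𝒮.ten (𝒮.ten (S j) (𝒮.dual (S i))) A) A := by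
        rw [𝒮.adj, 𝒮.h_symm, 𝒮.assoc, 𝒮.comm]
      rw [e2]
      refine (h2 A _).trans (le_of_eq ?_)
      rw [𝒮.dim_ten, 𝒮.dim_dual]
      ring
    calc ∑ i, ∑ j, a i * a j * 𝒮.h (𝒮.ten A (S i)) (𝒮.ten A (S j))
        ≤ ∑ i, ∑ j, a i * a j * (𝒮.dim (S i) * 𝒮.dim (S j) * 𝒮.h A A) :=
          Finset.sum_le_sum fun i _ => Finset.sum_le_sum fun j _ =>
            Nat.mul_le_mul_left _ (e1 i j)
      _ = (∑ i, a i * 𝒮.dim (S i)) ^ 2 * 𝒮.h A A := by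
          rw [sq, Finset.sum_mul_sum, Finset.sum_mul]
          refine Finset.sum_congr rfl fun i _ => ?_
          rw [Finset.sum_mul]
          exact Finset.sum_congr rfl fun j _ => by ring

end Pool.Agent.L7h73.RL
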