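import Pool.Agent.L7h73.RL.Clo

/-!
# The dichotomy for the energies of the powers of an object
-/

set_option autoImplicit false

namespace Pool.Agent.L7h73.RL

open Finset
open Pool.Agent.L7h85.RL

universe u

variable {Ob : Type u} {𝒮 : Sys Ob}

namespace Rp

variable (R : Rep 𝒮)

lemma v_swap2 (O : Ob) (i j : R.I) :
    R.v (𝒮.ten O (R.s i)) j = R.v (𝒮.ten (𝒮.dual O) (R.s j)) i := by
  rw [← h_s, h_mv, 𝒮.h_symm, h_s]

lemma pw_sub (O : Ob) (n : ℕ) {i : R.I} (hi : i ∈ (R.v (𝒮.pw O n)).support) :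
    (R.v (𝒮.ten O (R.s i))).support ⊆ (R.v (𝒮.pw O (n + 1))).support := by
  intro j hj
  rw [Finsupp.mem_support_iff] at hj ⊢
  show R.v (𝒮.ten O (𝒮.pw O n)) j ≠ 0
  rw [v_ten R (𝒮.pw O n) O (Finset.Subset.refl _)]
  intro h0
  rw [Finset.sum_eq_zero_iff] at h0
  have h1 := h0 i hi
  rcases Nat.mul_eq_zero.1 h1 with h2 | h2
  · exact (Finsupp.mem_support_iff.1 hi) h2
  · exact hj h2

end Rp

lemma dim_pw (O : Ob) (n : ℕ) : 𝒮.dim (𝒮.pw O n) = 𝒮.dim O ^ (n + 1) := by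
  induction n with
  | zero => simp [Sys.pw]
  | succ n ih =>
    show 𝒮.dim (𝒮.ten O (𝒮.pw O n)) = _
    rw [𝒮.dim_ten, ih]; ring

theorem s_DICH (hR : S_REP.{u}) (hCLO : S_CLO.{u}) (hNASH : S_NASH.{u}) (hREC : S_REC) :
    S_DICH.{u} := by
  intro Ob 𝒮 O hO
  classical
  obtain ⟨R⟩ := hR 𝒮
  set J : ℕ → Finset R.I := fun n => (R.v (𝒮.pw O n)).support with hJ
  set t : (n : ℕ) → {i // i ∈ J n} → {i // i ∈ J (n + 1)} → ℕ :=
    fun n ρ σ => R.v (𝒮.ten O (R.s ρ.1)) σ.1 with ht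
  by_cases hcon : ∀ n, ∀ F : Finset {i // i ∈ J n}, F.Nonempty →
      ∃ σ : {i // i ∈ J (n + 1)}, (∃ ρ ∈ F, t n ρ σ ≠ 0) ∧
        ((∃ ρ, ρ ∉ F ∧ t n ρ σ ≠ 0) ∨
          ∑ ρ, t n ρ σ * 𝒮.dim (R.s ρ.1) < 𝒮.dim O * 𝒮.dim (R.s σ.1))
  · right
    have hkey : ∀ n, (𝒮.h (𝒮.pw O n) (𝒮.pw O n) : ℝ) ^ 3 ≤
        8 * ((𝒮.dim O : ℝ) ^ (n + 1)) ^ 4 * ((𝒮.dim O : ℝ) ^ 2 * 𝒮.h (𝒮.pw O n) (𝒮.pw O n) -
          𝒮.h (𝒮.pw O (n + 1)) (𝒮.pw O (n + 1))) := by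
      intro n
      have h1 := hNASH {i // i ∈ J n} {i // i ∈ J (n + 1)}
        (fun ρ => (R.v (𝒮.pw O n) ρ.1 : ℝ)) (fun ρ => 𝒮.dim (R.s ρ.1))
        (fun σ => 𝒮.dim (R.s σ.1)) (t n) (𝒮.dim O) (fun ρ => Nat.cast_nonneg _)
        (fun ρ => R.dim_pos _) ?_ ?_ (hcon n)
      · have e1 : ∑ ρ : {i // i ∈ J n}, (R.v (𝒮.pw O n) ρ.1 : ℝ) ^ 2 =
            (𝒮.h (𝒮.pw O n) (𝒮.pw O n) : ℝ) := by
          rw [Rp.h_fin R (𝒮.pw O n) (𝒮.pw O n) (Finset.Subset.refl _)]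
          push_cast
          rw [← Finset.sum_coe_sort (J n)]
          exact Finset.sum_congr rfl fun i _ => by ring
        have e2 : ∑ ρ : {i // i ∈ J n}, (R.v (𝒮.pw O n) ρ.1 : ℝ) * (𝒮.dim (R.s ρ.1) : ℝ) =
            (𝒮.dim O : ℝ) ^ (n + 1) := by
          have := dim_pw (𝒮 := 𝒮) O n
          rw [Rp.dim_fin R (𝒮.pw O n) (Finset.Subset.refl _),
            ← Finset.sum_coe_sort] at this
          exact_mod_cast this
        have e3 : ∀ σ : {i // i ∈ J (n + 1)}, ∑ ρ : {i // i ∈ J n}, (t n ρ σ : ℝ) *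
            (R.v (𝒮.pw O n) ρ.1 : ℝ) = (R.v (𝒮.pw O (n + 1)) σ.1 : ℝ) := by
          intro σ
          have h2 := Rp.v_ten R (𝒮.pw O n) O (Finset.Subset.refl _) σ.1
          rw [← Finset.sum_coe_sort] at h2
          have h3 : R.v (𝒮.pw O (n + 1)) σ.1 = ∑ ρ : {i // i ∈ J n},
              R.v (𝒮.pw O n) ρ.1 * R.v (𝒮.ten O (R.s ρ.1)) σ.1 := h2
          rw [h3]
          push_cast
          exact Finset.sum_congr rfl fun i _ => by rw [ht]; ring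
        have e4 : ∑ σ : {i // i ∈ J (n + 1)}, (R.v (𝒮.pw O (n + 1)) σ.1 : ℝ) ^ 2 =
            (𝒮.h (𝒮.pw O (n + 1)) (𝒮.pw O (n + 1)) : ℝ) := by
          rw [Rp.h_fin R (𝒮.pw O (n + 1)) (𝒮.pw O (n + 1)) (Finset.Subset.refl _)]
          push_cast
          rw [← Finset.sum_coe_sort (J (n + 1))]
          exact Finset.sum_congr rfl fun i _ => by ring
        rw [e1, e2, Finset.sum_congr rfl fun σ _ => by rw [e3 σ], e4] at h1
        exact h1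
      · intro ρ
        have h2 := Rp.dim_fin R (𝒮.ten O (R.s ρ.1)) (Rp.pw_sub R O n ρ.2)
        rw [𝒮.dim_ten, ← Finset.sum_coe_sort] at h2
        exact h2.symm
      · intro σ
        have h2 := Rp.dim_sub R (𝒮.ten (𝒮.dual O) (R.s σ.1)) (J n)
        rw [𝒮.dim_ten, 𝒮.dim_dual, ← Finset.sum_coe_sort] at h2
        refine le_trans (le_of_eq ?_) h2
        exact Finset.sum_congr rfl fun ρ _ => by
          show R.v (𝒮.ten O (R.s ρ.1)) σ.1 * _ = _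
          rw [Rp.v_swap2]
    have ho : (0 : ℝ) < 𝒮.dim O := by exact_mod_cast hO
    obtain ⟨C, hC, hE⟩ := hREC (1 / (8 * (𝒮.dim O : ℝ) ^ 2))
      (fun n => (𝒮.h (𝒮.pw O n) (𝒮.pw O n) : ℝ) / (𝒮.dim O : ℝ) ^ (2 * (n + 1)))
      (by positivity) (fun n => by positivity) (by
        intro n
        have h1 := hkey n
        set o : ℝ := (𝒮.dim O : ℝ)
        set x : ℝ := (𝒮.h (𝒮.pw O n) (𝒮.pw O n) : ℝ)
        set y : ℝ := (𝒮.h (𝒮.pw O (n + 1)) (𝒮.pw O (n + 1)) : ℝ)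
        set q : ℝ := o ^ (n + 1) with hq
        have hqp : 0 < q := by positivity
        have e1 : o ^ (2 * (n + 1)) = q ^ 2 := by rw [hq, ← pow_mul]; ring_nf
        have e2 : o ^ (2 * (n + 1 + 1)) = q ^ 2 * o ^ 2 := by rw [hq, ← pow_mul]; ring_nf
        rw [e1, e2]
        have h2 : x ^ 3 / (8 * o ^ 2 * q ^ 6) ≤
            (8 * q ^ 4 * (o ^ 2 * x - y)) / (8 * o ^ 2 * q ^ 6) :=
          div_le_div_of_nonneg_right h1 (by positivity)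
        have h3 : (8 * q ^ 4 * (o ^ 2 * x - y)) / (8 * o ^ 2 * q ^ 6) =
            x / q ^ 2 - y / (q ^ 2 * o ^ 2) := by
          field_simp
        have h4 : 1 / (8 * o ^ 2) * (x / q ^ 2) ^ 3 = x ^ 3 / (8 * o ^ 2 * q ^ 6) := by
          field_simp
        rw [h4]
        linarith [h3])
    refine ⟨C, hC, fun n => ?_⟩
    have h5 := hE n
    rw [div_le_iff₀ (by positivity)] at h5
    refine h5.trans (le_of_eq ?_)
    ring
  · left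
    push Not at hcon
    obtain ⟨n, F, hF, hσ⟩ := hcon
    have : Nonempty {ρ // ρ ∈ F} := hF.to_subtype
    refine ⟨∑ i : {ρ // ρ ∈ F}, 𝒮.dim (R.s i.1.1) ^ 2,
      hCLO 𝒮 O {ρ // ρ ∈ F} (fun ρ => R.s ρ.1.1) ?_ ?_ ?_⟩
    · intro i
      rw [Rp.h_s, R.v_s, Finsupp.single_eq_same]
    · intro i j hij
      rw [Rp.h_s, R.v_s, Finsupp.single_eq_of_ne]
      intro h
      exact hij (Subtype.ext (Subtype.ext h.symm))
    · intro i S' hS' hne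
      obtain ⟨k, hk⟩ := Rp.simple R hS'
      rw [𝒮.h_symm, Rp.simple_h R hk,
        Rp.v_ten R (𝒮.ten O (R.s i.1.1)) (𝒮.dual O) (Finset.Subset.refl _)] at hne
      obtain ⟨σ, hσm, hσne⟩ := Finset.exists_ne_zero_of_sum_ne_zero hne
      have hσ1 : R.v (𝒮.ten O (R.s i.1.1)) σ ≠ 0 := Finsupp.mem_support_iff.1 hσm
      have hσ2 : R.v (𝒮.ten (𝒮.dual O) (R.s σ)) k ≠ 0 := right_ne_zero_of_mul hσne
      have hσJ : σ ∈ J (n + 1) := Rp.pw_sub R O n i.1.2 hσm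
      obtain ⟨hA, hB⟩ := hσ ⟨σ, hσJ⟩ ⟨i.1, i.2, hσ1⟩
      have hkJ : k ∈ J n := by
        by_contra hk0
        have h2 := Rp.dim_sub R (𝒮.ten (𝒮.dual O) (R.s σ)) (insert k (J n))
        rw [𝒮.dim_ten, 𝒮.dim_dual, Finset.sum_insert hk0] at h2
        have h3 : ∑ ρ : {i // i ∈ J n}, t n ρ ⟨σ, hσJ⟩ * 𝒮.dim (R.s ρ.1) =
            ∑ ρ ∈ J n, R.v (𝒮.ten (𝒮.dual O) (R.s σ)) ρ * 𝒮.dim (R.s ρ) := by
          rw [← Finset.sum_coe_sort (J n)]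
          exact Finset.sum_congr rfl fun ρ _ => by
            show R.v (𝒮.ten O (R.s ρ.1)) σ * _ = _
            rw [Rp.v_swap2]
        rw [h3] at hB
        have h4 : 0 < R.v (𝒮.ten (𝒮.dual O) (R.s σ)) k * 𝒮.dim (R.s k) :=
          Nat.mul_pos (Nat.pos_of_ne_zero hσ2) (R.dim_pos k)
        simp only at hB
        omega
      have hkF : (⟨k, hkJ⟩ : {i // i ∈ J n}) ∈ F := by
        by_contra hk0
        have h2 := hA ⟨k, hkJ⟩ hk0
        apply hσ2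
        rw [← Rp.v_swap2]
        exact h2
      refine ⟨⟨⟨k, hkJ⟩, hkF⟩, ?_⟩
      rw [Rp.h_s, hk, Finsupp.single_eq_same]
      exact one_ne_zero

end Pool.Agent.L7h73.RL
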