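import Pool.Agent.L7h73.RL.Frc
import Pool.Agent.L7h85.RL.DecB

/-!
# The length of an object is at most the number of its Tate classes
-/

set_option linter.unusedVariables false
set_option linter.unusedSectionVars false

open CategoryTheory AlgebraicGeometry CategoryTheory.Limits

universe u v

namespace Pool.Agent.L7h73.RL

open Pool.Agent.H914 Pool.Agent.H447 Pool.Agent.W534 VarClass Obj WeilCohomology Module
open Pool.Agent.Y163 Pool.Agent.L7h85.RL

variable {k : Type u} [Field k] {𝒱 : VarClass k} {ops : CycleOps 𝒱}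
  {W : WeilCohomology.{u, v} ops} {X Y Z : 𝒱.Obj} {p : ℕ} (Φ : FrobSystem W p)

/-- the decomposition given by a decomposition of the idempotent -/
theorem dec_of_wde (hK : IsAlgClosed W.K) (hpar : AllPar W) (A : GOb W)
    (w : Wde (KAlg W A.Z) A.e) : ∃ D : Dec gh gdim A, ∑ c, D.m c = Fintype.card w.I := by
  let Sc : w.C → GOb W := fun c => ⟨A.Z, w.e (w.rep c), w.e_mem _, by rw [w.e_mul, if_pos rfl]⟩
  have hmu : ∀ (c : w.C) (B : GOb W) (r : ℤ), (B.Z.dim : ℤ) = A.Z.dim + 2 * r →
      gh (Sc c) B = mu (KOp W A.Z B.Z r) (KOp W B.Z A.Z (-r)) B.e (w.e (w.rep c)) :=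
    fun c B r hr => s_mu hpar (Sc c) B r hr
  have hpr : ∀ B : GOb W, (A.Z.dim + B.Z.dim) % 2 = 0 → ∃ r : ℤ,
      (B.Z.dim : ℤ) = A.Z.dim + 2 * r := fun B h => ⟨((B.Z.dim : ℤ) - A.Z.dim) / 2, by omega⟩
  have hodd : ∀ (c : w.C) (B : GOb W), (A.Z.dim + B.Z.dim) % 2 ≠ 0 → gh (Sc c) B = 0 :=
    fun c B h => gh_odd (A := Sc c) (B := B) h
  refine ⟨{
    C := w.C
    S := Sc
    m := w.m
    m_pos := w.m_pos
    dim_pos := fun c => w.finrank_pos _
    ortho := ?_
    par := ?_
    dim_eq := w.finrank_eq A.idem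
    bessel := ?_
    bessel_dim := ?_ }, ?_⟩
  · intro c c'
    rw [hmu c (Sc c') 0 (by change (A.Z.dim : ℤ) = _; ring)]
    have e1 : mu (KOp W A.Z (Sc c').Z 0) (KOp W (Sc c').Z A.Z (-0)) (Sc c').e (w.e (w.rep c)) =
        mu (Subalgebra.toSubmodule (KAlg W A.Z)) (Subalgebra.toSubmodule (KAlg W A.Z))
          (w.e (w.rep c')) (w.e (w.rep c)) := by
      rw [neg_zero]
      rfl
    rw [e1]
    split_ifs with h
    · subst h
      exact mu_diag (w.e_mem _) (by rw [w.e_mul, if_pos rfl]) (w.e_ne _) (w.diag _)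
    · refine mu_off (w.off _ _ ?_)
      rw [w.κ_rep, w.κ_rep]
      exact Ne.symm h
  · intro B
    by_cases hB : (A.Z.dim + B.Z.dim) % 2 = 0
    · obtain ⟨r, hr⟩ := hpr B hB
      rw [s_mu hpar A B r hr, w.mu_eq (duo W A.Z B.Z r) B.mem]
      exact Finset.sum_congr rfl fun c _ => by rw [hmu c B r hr]
    · rw [gh_odd hB]
      symm
      exact Finset.sum_eq_zero fun c _ => by rw [hodd c B hB, mul_zero]
  · intro B B'
    by_cases hB : (A.Z.dim + B.Z.dim) % 2 = 0
    · by_cases hB' : (A.Z.dim + B'.Z.dim) % 2 = 0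
      · obtain ⟨r, hr⟩ := hpr B hB
        obtain ⟨r', hr'⟩ := hpr B' hB'
        rw [s_mu hpar B B' (r' - r) (by omega)]
        have h1 := sum_mu_mul_mu_le (R := KOp W B.Z B'.Z (r' - r))
          (T := KOp W B'.Z B.Z (-(r' - r))) (duo W A.Z B.Z r) (duo W A.Z B'.Z r')
          (fun y hy x hx => KOp.cast (KOp.comp hx hy) (by ring))
          (fun x hx y hy => KOp.cast (KOp.comp hx hy) (by ring)) w.prims B.mem B.idem
          B'.mem B'.idem
        refine le_trans (le_of_eq ?_) h1
        exact Finset.sum_congr rfl fun c _ => by rw [hmu c B r hr, hmu c B' r' hr']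
      · rw [Finset.sum_eq_zero fun c _ => by rw [hodd c B' hB', mul_zero]]
        exact Nat.zero_le _
    · rw [Finset.sum_eq_zero fun c _ => by rw [hodd c B hB, zero_mul]]
      exact Nat.zero_le _
  · intro B
    by_cases hB : (A.Z.dim + B.Z.dim) % 2 = 0
    · obtain ⟨r, hr⟩ := hpr B hB
      have h1 := sum_mu_mul_rank_le (duo W A.Z B.Z r) w.prims B.mem B.idem
      refine le_trans (le_of_eq ?_) h1
      exact Finset.sum_congr rfl fun c _ => by rw [hmu c B r hr]; rfl
    · rw [Finset.sum_eq_zero fun c _ => by rw [hodd c B hB, zero_mul]]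
      exact Nat.zero_le _
  · change ∑ c, w.m c = _
    have h1 := w.sum_eq (fun _ => 1)
    simp only [mul_one, Finset.sum_const, Finset.card_univ, smul_eq_mul] at h1
    exact h1.symm

/-- a level at which the Frobenius endomorphism commutes with all correspondences and the
generalised Tate classes are generalised eigenvectors -/
lemma exists_level (Z : 𝒱.Obj) (q : ℕ) : ∃ t, 0 < t ∧ genTate Φ Z t q = genU Φ Z q ∧
    ∀ f ∈ KOp W Z Z 0, frob Φ Z t * f = f * frob Φ Z t := by
  obtain ⟨s, hs, h⟩ := s_FRC Φ Z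
  have h2 := (exists_stable Φ Z q).choose_spec
  refine ⟨s * (exists_stable Φ Z q).choose, Nat.mul_pos hs h2.1, ?_, fun f hf => h _ f hf⟩
  exact genU_eq Φ (Nat.mul_pos hs h2.1) (Dvd.intro_left _ rfl)

theorem s_TAU (σ : W.K →+* ℂ) : S_TAU Φ σ := by
  rintro hp hK hRH A ⟨q, hq, hA⟩
  have hpar := allPar Φ hp σ hRH
  obtain ⟨w⟩ := exists_wde (KAlg W A.Z) A.mem A.idem
  obtain ⟨D, hD⟩ := dec_of_wde hK hpar A w
  refine ⟨D, ?_⟩
  rw [hD]
  obtain ⟨t, ht, hgen, hcomm⟩ := exists_level Φ A.Z q
  set F := frob Φ A.Z t with hF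
  set μ : W.K := (card Φ A.Z t : W.K) ^ q with hμ
  set N : Module.End W.K (W.H A.Z) := F - μ • (1 : Module.End W.K (W.H A.Z)) with hN
  have hAe : ∀ i, A.e * w.e i = w.e i := by
    intro i
    have h1 := congrArg (fun z => z * w.e i) w.e_sum
    simp only [Finset.sum_mul, w.e_mul] at h1
    rw [Finset.sum_ite_eq' Finset.univ i, if_pos (Finset.mem_univ _)] at h1
    exact h1.symm
  have hNc : ∀ i, Commute N (w.e i) := by
    intro i
    exact (show Commute F (w.e i) from hcomm _ (w.e_mem i)).sub_left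
      ((Commute.one_left _).smul_left μ)
  have hnil : ∀ i, ∃ K : ℕ, N ^ K * w.e i = 0 := by
    intro i
    refine ⟨finrank W.K (W.H A.Z), ?_⟩
    apply LinearMap.ext
    intro x
    have h1 : w.e i x ∈ genTate Φ A.Z t q := by
      rw [hgen]
      apply hA
      rw [← hAe i]
      exact ⟨_, rfl⟩
    have h2 : w.e i x ∈ Module.End.maxGenEigenspace F μ := h1.1
    rw [Module.End.maxGenEigenspace_eq_genEigenspace_finrank,
      Module.End.mem_genEigenspace_nat, LinearMap.mem_ker] at h2
    exact h2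
  have hex : ∀ i, ∃ y : W.H A.Z, y ≠ 0 ∧ N y = 0 ∧ w.e i y = y := by
    intro i
    classical
    have hfind := Nat.find_spec (hnil i)
    have hmin := fun m => Nat.find_min (hnil i) (m := m)
    set K := Nat.find (hnil i) with hKdef
    rcases K with _ | K
    · exfalso
      rw [pow_zero, one_mul] at hfind
      exact w.e_ne i hfind
    · have h1 : N ^ K * w.e i ≠ 0 := hmin K (Nat.lt_succ_self K)
      obtain ⟨x, hx⟩ : ∃ x, (N ^ K * w.e i) x ≠ 0 := by
        by_contra hcon
        push Not at hcon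
        exact h1 (LinearMap.ext hcon)
      refine ⟨(N ^ K * w.e i) x, hx, ?_, ?_⟩
      · rw [← Module.End.mul_apply, ← mul_assoc, ← pow_succ', hfind]; rfl
      · rw [← Module.End.mul_apply, ← mul_assoc, ← ((hNc i).pow_left K).eq, mul_assoc, w.e_mul,
          if_pos rfl]
  choose y hy0 hNy hey using hex
  have hmem : ∀ i, y i ∈ (tsub Φ A.Z (A.Z.dim / 2) ⊓ LinearMap.range A.e :
      Submodule W.K (W.H A.Z)) := by
    intro i
    have h1 : y i ∈ LinearMap.range A.e := ⟨y i, by
      nth_rw 1 [← hey i]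
      rw [← Module.End.mul_apply, hAe, hey]⟩
    refine ⟨?_, h1⟩
    apply Submodule.subset_span
    have hdq : A.Z.dim / 2 = q := by omega
    rw [hdq]
    refine ⟨?_, t, ht, ?_⟩
    · have h2 := hA h1
      rw [← hgen] at h2
      exact h2.2
    · have h2 := hNy i
      rw [hN, LinearMap.sub_apply, LinearMap.smul_apply, Module.End.one_apply, sub_eq_zero, hF,
        hμ, card_pow] at h2
      exact h2
  have hli : LinearIndependent W.K (fun i : w.I =>
      (⟨y i, hmem i⟩ : (tsub Φ A.Z (A.Z.dim / 2) ⊓ LinearMap.range A.e :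
        Submodule W.K (W.H A.Z)))) := by
    rw [Fintype.linearIndependent_iff]
    intro g hg j
    have h0 := congrArg (Submodule.subtype _) hg
    have h1 := congrArg (w.e j) h0
    simp only [map_sum, map_smul, Submodule.subtype_apply, map_zero] at h1
    rw [Finset.sum_eq_single j] at h1
    · rw [hey] at h1
      exact (smul_eq_zero.1 h1).resolve_right (hy0 j)
    · intro i _ hij
      rw [← hey i, ← Module.End.mul_apply, w.e_mul, if_neg (Ne.symm hij), LinearMap.zero_apply,
        smul_zero]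
    · intro h; exact absurd (Finset.mem_univ _) h
  exact hli.fintype_card_le_finrank

end Pool.Agent.L7h73.RL
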