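import Pool.Agent.L7h73.RL.Sta

/-!
# The Frobenius endomorphism of a product
-/

set_option linter.unusedVariables false
set_option linter.unusedSectionVars false

open CategoryTheory AlgebraicGeometry CategoryTheory.Limits

universe u v

namespace Pool.Agent.L7h73.RL

open Pool.Agent.H914 Pool.Agent.H447 Pool.Agent.W534 VarClass Obj WeilCohomology Module
open Pool.Agent.Y163 Pool.Agent.L7h85.RL

variable {k : Type u} [Field k] {𝒱 : VarClass k} {ops : CycleOps 𝒱}
  {W : WeilCohomology.{u, v} ops} {X Y Z : 𝒱.Obj} {p : ℕ} (Φ : FrobSystem W p)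

/-- The Frobenius endomorphism of a product over suitable finite fields. -/
lemma frob_prod (A B : 𝒱.Obj) : ∃ s1 s2 s3 : ℕ, 0 < s1 ∧ 0 < s2 ∧ 0 < s3 ∧
    s1 * Φ.e (A.prod B) = s2 * Φ.e A ∧ s1 * Φ.e (A.prod B) = s3 * Φ.e B ∧
    ∀ t : ℕ, frob Φ (A.prod B) (s1 * t) = extOp W (frob Φ A (s2 * t)) (frob Φ B (s3 * t)) := by
  obtain ⟨a, b, ha, hb, hab, h⟩ := frob_comm (W := W) Φ (fst A B)
  obtain ⟨a', b', ha', hb', hab', h'⟩ := frob_comm (W := W) Φ (snd A B)
  refine ⟨a * a', b * a', b' * a, Nat.mul_pos ha ha', Nat.mul_pos hb ha', Nat.mul_pos hb' ha,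
    ?_, ?_, fun t => ?_⟩
  · calc a * a' * Φ.e (A.prod B) = (a * Φ.e (A.prod B)) * a' := by ring
      _ = b * a' * Φ.e A := by rw [hab]; ring
  · calc a * a' * Φ.e (A.prod B) = (a' * Φ.e (A.prod B)) * a := by ring
      _ = b' * a * Φ.e B := by rw [hab']; ring
  · apply LinearMap.ext
    intro x
    refine W.kunneth_induction (p := fun x => frob Φ (A.prod B) (a * a' * t) x =
      extOp W (frob Φ A (b * a' * t)) (frob Φ B (b' * a * t)) x) ?_ ?_ x
    · intro x y hx hy
      rw [map_add, map_add, hx, hy]
    · intro i j x hx y hy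
      rw [extOp_tmul, frob_apply, map_mul, frob_apply, frob_apply]
      have e1 := h (a' * t) x
      have e2 := h' (a * t) y
      rw [← mul_assoc, ← mul_assoc] at e1 e2
      rw [e1, mul_comm a a', e2]

/-- Generalised eigenvectors of an external product. -/
lemma ext_gen (F : Module.End W.K (W.H Y)) (G : Module.End W.K (W.H Z)) (a b : W.K) :
    ∀ (N n m : ℕ) (e : Module.End W.K (W.H Y)) (f : Module.End W.K (W.H Z)), n + m ≤ N →
    (F - a • (1 : Module.End W.K (W.H Y))) ^ n * e = 0 →
    (G - b • (1 : Module.End W.K (W.H Z))) ^ m * f = 0 →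
    (extOp W F G - (a * b) • (1 : Module.End W.K (W.H (Y.prod Z)))) ^ N * extOp W e f = 0 := by
  intro N
  induction N with
  | zero =>
    intro n m e f hnm he hf
    have hn : n = 0 := by omega
    subst hn
    rw [pow_zero, one_mul] at he
    rw [he, extOp_zero_left, mul_zero]
  | succ N ih =>
    intro n m e f hnm he hf
    rcases n with _ | n
    · rw [pow_zero, one_mul] at he
      rw [he, extOp_zero_left, mul_zero]
    rcases m with _ | m
    · rw [pow_zero, one_mul] at hf
      rw [hf, extOp_zero_right, mul_zero]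
    have e1 : (extOp W F G - (a * b) • (1 : Module.End W.K (W.H (Y.prod Z)))) * extOp W e f =
        extOp W ((F - a • (1 : Module.End W.K (W.H Y))) * e) (G * f) +
          a • extOp W e ((G - b • (1 : Module.End W.K (W.H Z))) * f) := by
      have h1 : extOp W ((F - a • (1 : Module.End W.K (W.H Y))) * e) (G * f) =
          extOp W (F * e) (G * f) - a • extOp W e (G * f) := by
        rw [sub_mul, smul_mul_assoc, one_mul, ← extOp_smul_left, eq_sub_iff_add_eq,
          ← extOp_add_left, sub_add_cancel]
      have h2 : extOp W e ((G - b • (1 : Module.End W.K (W.H Z))) * f) =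
          extOp W e (G * f) - b • extOp W e f := by
        rw [sub_mul, smul_mul_assoc, one_mul, ← extOp_smul_right, eq_sub_iff_add_eq,
          ← extOp_add_right, sub_add_cancel]
      rw [h1, h2, sub_mul, extOp_mul, smul_mul_assoc, one_mul, smul_sub, smul_smul]
      abel
    rw [pow_succ, mul_assoc, e1, mul_add, mul_smul_comm]
    have h1 := ih n (m + 1) ((F - a • (1 : Module.End W.K (W.H Y))) * e) (G * f) (by omega)
      (by rw [← mul_assoc, ← pow_succ]; exact he)
      (by
        have hc : Commute G (G - b • (1 : Module.End W.K (W.H Z))) :=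
          (Commute.refl _).sub_right ((Commute.one_right _).smul_right _)
        rw [← mul_assoc, ← (hc.pow_right (m + 1)).eq, mul_assoc, hf, mul_zero])
    have h2 := ih (n + 1) m e ((G - b • (1 : Module.End W.K (W.H Z))) * f) (by omega) he
      (by rw [← mul_assoc, ← pow_succ]; exact hf)
    rw [h1, h2, smul_zero, add_zero]

/-- Powers of an operator and generalised eigenvectors. -/
lemma pow_gen {V K : Type*} [Field K] [AddCommGroup V] [Module K V] (F e : Module.End K V)
    (a : K) (n r : ℕ) (h : (F - a • (1 : Module.End K V)) ^ n * e = 0) :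
    (F ^ r - (a ^ r) • (1 : Module.End K V)) ^ n * e = 0 := by
  have hc : Commute F (a • (1 : Module.End K V)) := (Commute.one_right F).smul_right a
  have h1 := hc.geom_sum₂_mul r
  have h2 : (a • (1 : Module.End K V)) ^ r = a ^ r • (1 : Module.End K V) := by
    rw [smul_pow, one_pow]
  rw [h2] at h1
  have hc2 : Commute (∑ i ∈ Finset.range r, F ^ i * (a • (1 : Module.End K V)) ^ (r - 1 - i))
      (F - a • 1) := by
    apply Commute.sum_left
    intro i _
    apply Commute.sub_right
    · exact ((Commute.refl F).pow_left _).mul_left (hc.symm.pow_left _)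
    · exact (hc.pow_left _).mul_left ((Commute.refl _).pow_left _)
  rw [← h1, hc2.mul_pow, mul_assoc, h, mul_zero]

/-- Disjoint generalised eigenspaces: if `(F - a)^n e = 0` and `(F - b)^m x = 0` with `a ≠ b` and
`e` is an idempotent which commutes with `F`, then `e x = 0`. -/
lemma gen_disj {V K : Type*} [Field K] [AddCommGroup V] [Module K V] (F e : Module.End K V)
    {a b : K} (hab : a ≠ b) {n m : ℕ} (h : (F - a • (1 : Module.End K V)) ^ n * e = 0)
    (hFe : F * e = e * F) {x : V} (hx : ((F - b • (1 : Module.End K V)) ^ m) x = 0) :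
    e x = 0 := by
  have hd : Disjoint (F.maxGenEigenspace a) (F.maxGenEigenspace b) :=
    Module.End.disjoint_genEigenspace F hab _ _
  refine (Submodule.disjoint_def.1 hd) (e x) ?_ ?_
  · rw [Module.End.mem_maxGenEigenspace]
    exact ⟨n, congrArg (fun f => f x) h⟩
  · rw [Module.End.mem_maxGenEigenspace]
    refine ⟨m, ?_⟩
    have hc : Commute e (F - b • (1 : Module.End K V)) :=
      (show Commute e F from hFe.symm).sub_right ((Commute.one_right _).smul_right _)
    rw [← Module.End.mul_apply, ← (hc.pow_right m).eq, Module.End.mul_apply, hx, map_zero]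

end Pool.Agent.L7h73.RL
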