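import Pool.Agent.L7h73.RL.Jor
import Pool.Agent.L7h73.RL.Tau
import Pool.Agent.L7h89.RL.Tns

/-!
# Energies and multiplicities in the powers of an object on which the Frobenius endomorphism is
not semisimple
-/

set_option autoImplicit false
set_option linter.unusedVariables false
set_option linter.unusedSectionVars false

open CategoryTheory AlgebraicGeometry CategoryTheory.Limits TensorProduct

universe u v

namespace Pool.Agent.L7h73.RL

open Pool.Agent.H914 Pool.Agent.H447 Pool.Agent.W534 VarClass Obj WeilCohomology Module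
open Pool.Agent.Y163 Pool.Agent.L7h85.RL
open Pool.Agent.L7h89.RL (rs rs_coe rs_pow_coe rs_sub_pow_coe jj jj_map te te_coe gp pw_eq wq_eq
  gp_dim gdim_gp uo uo_comm frob_uo fn fn_comm fn_unip frob_eq_fn nil_map nil_conj rs_pow rs_congr)

variable {k : Type u} [Field k] {𝒱 : VarClass k} {ops : CycleOps 𝒱}
  {W : WeilCohomology.{u, v} ops} {X Y Z : 𝒱.Obj} {p : ℕ} (Φ : FrobSystem W p)

/-- the decomposition given by a decomposition of the idempotent -/
theorem dec_of_wde' (hK : IsAlgClosed W.K) (hpar : AllPar W) (A : GOb W)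
    (w : Wde (KAlg W A.Z) A.e) : ∃ D : Dec gh gdim A, ∑ c, D.m c = Fintype.card w.I ∧
      ∀ c, ∃ c', D.m c = w.m c' := by
  let Sc : w.C → GOb W := fun c => ⟨A.Z, w.e (w.rep c), w.e_mem _, by rw [w.e_mul, if_pos rfl]⟩
  have hmu : ∀ (c : w.C) (B : GOb W) (r : ℤ), (B.Z.dim : ℤ) = A.Z.dim + 2 * r →
      gh (Sc c) B = mu (KOp W A.Z B.Z r) (KOp W B.Z A.Z (-r)) B.e (w.e (w.rep c)) :=
    fun c B r hr => s_mu hpar (Sc c) B r hr
  have hpr : ∀ B : GOb W, (A.Z.dim + B.Z.dim) % 2 = 0 → ∃ r : ℤ,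
      (B.Z.dim : ℤ) = A.Z.dim + 2 * r := fun B h => ⟨((B.Z.dim : ℤ) - A.Z.dim) / 2, by omega⟩
  have hodd : ∀ (c : w.C) (B : GOb W), (A.Z.dim + B.Z.dim) % 2 ≠ 0 → gh (Sc c) B = 0 :=
    fun c B h => gh_odd (A := Sc c) (B := B) h
  refine ⟨{
    C := w.C
    S := Sc
    m := w.m
    m_pos := w.m_pos
    dim_pos := fun c => w.finrank_pos _
    ortho := ?_
    par := ?_
    dim_eq := w.finrank_eq A.idem
    bessel := ?_
    bessel_dim := ?_ }, ?_, fun c => ⟨c, rfl⟩⟩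
  · intro c c'
    rw [hmu c (Sc c') 0 (by change (A.Z.dim : ℤ) = _; ring)]
    have e1 : mu (KOp W A.Z (Sc c').Z 0) (KOp W (Sc c').Z A.Z (-0)) (Sc c').e (w.e (w.rep c)) =
        mu (Subalgebra.toSubmodule (KAlg W A.Z)) (Subalgebra.toSubmodule (KAlg W A.Z))
          (w.e (w.rep c')) (w.e (w.rep c)) := by
      rw [neg_zero]
      rfl
    rw [e1]
    split_ifs with h
    · subst h
      exact mu_diag (w.e_mem _) (by rw [w.e_mul, if_pos rfl]) (w.e_ne _) (w.diag _)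
    · refine mu_off (w.off _ _ ?_)
      rw [w.κ_rep, w.κ_rep]
      exact Ne.symm h
  · intro B
    by_cases hB : (A.Z.dim + B.Z.dim) % 2 = 0
    · obtain ⟨r, hr⟩ := hpr B hB
      rw [s_mu hpar A B r hr, w.mu_eq (duo W A.Z B.Z r) B.mem]
      exact Finset.sum_congr rfl fun c _ => by rw [hmu c B r hr]
    · rw [gh_odd hB]
      symm
      exact Finset.sum_eq_zero fun c _ => by rw [hodd c B hB, mul_zero]
  · intro B B'
    by_cases hB : (A.Z.dim + B.Z.dim) % 2 = 0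
    · by_cases hB' : (A.Z.dim + B'.Z.dim) % 2 = 0
      · obtain ⟨r, hr⟩ := hpr B hB
        obtain ⟨r', hr'⟩ := hpr B' hB'
        rw [s_mu hpar B B' (r' - r) (by omega)]
        have h1 := sum_mu_mul_mu_le (R := KOp W B.Z B'.Z (r' - r))
          (T := KOp W B'.Z B.Z (-(r' - r))) (duo W A.Z B.Z r) (duo W A.Z B'.Z r')
          (fun y hy x hx => KOp.cast (KOp.comp hx hy) (by ring))
          (fun x hx y hy => KOp.cast (KOp.comp hx hy) (by ring)) w.prims B.mem B.idem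
          B'.mem B'.idem
        refine le_trans (le_of_eq ?_) h1
        exact Finset.sum_congr rfl fun c _ => by rw [hmu c B r hr, hmu c B' r' hr']
      · rw [Finset.sum_eq_zero fun c _ => by rw [hodd c B' hB', mul_zero]]
        exact Nat.zero_le _
    · rw [Finset.sum_eq_zero fun c _ => by rw [hodd c B hB, zero_mul]]
      exact Nat.zero_le _
  · intro B
    by_cases hB : (A.Z.dim + B.Z.dim) % 2 = 0
    · obtain ⟨r, hr⟩ := hpr B hB
      have h1 := sum_mu_mul_rank_le (duo W A.Z B.Z r) w.prims B.mem B.idem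
      refine le_trans (le_of_eq ?_) h1
      exact Finset.sum_congr rfl fun c _ => by rw [hmu c B r hr]; rfl
    · rw [Finset.sum_eq_zero fun c _ => by rw [hodd c B hB, zero_mul]]
      exact Nat.zero_le _
  · change ∑ c, w.m c = _
    have h1 := w.sum_eq (fun _ => 1)
    simp only [mul_one, Finset.sum_const, Finset.card_univ, smul_eq_mul] at h1
    exact h1.symm

/-- the energy is the sum of the squares of the multiplicities -/
lemma gh_self {A : GOb W} (hsym : ∀ A B : GOb W, gh A B = gh B A) (D : Dec gh gdim A) :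
    gh A A = ∑ c, D.m c ^ 2 := by
  rw [D.par A]
  refine Finset.sum_congr rfl fun c _ => ?_
  rw [hsym (D.S c) A, D.par (D.S c), Finset.sum_eq_single c]
  · rw [D.ortho, if_pos rfl, mul_one, pow_two]
  · intro c' _ h
    rw [D.ortho, if_neg h, mul_zero]
  · intro h; exact absurd (Finset.mem_univ _) h

/-- the multiplicity of a simple object is at most the maximal multiplicity -/
lemma gh_simple {A S : GOb W} (hsym : ∀ A B : GOb W, gh A B = gh B A) (D : Dec gh gdim A)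
    (hS : gh S S = 1) {H : ℕ} (hH : ∀ c, D.m c ≤ H) : gh S A ≤ H := by
  rw [hsym, D.par]
  calc ∑ c, D.m c * gh (D.S c) S ≤ ∑ c, H * (gh (D.S c) S * gh (D.S c) S) := by
        refine Finset.sum_le_sum fun c _ => ?_
        exact Nat.mul_le_mul (hH c) (Nat.le_mul_self _)
    _ = H * ∑ c, gh (D.S c) S * gh (D.S c) S := by rw [Finset.mul_sum]
    _ ≤ H * 1 := Nat.mul_le_mul le_rfl ((D.bessel S S).trans hS.le)
    _ = H := mul_one H

/-- The unipotent operators given by the powers of the Frobenius endomorphism. -/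
theorem setup (σ : W.K →+* ℂ) (hp : 1 < p) (hK : IsAlgClosed W.K)
    (hRH : ∀ Z : 𝒱.Obj, RiemannHyp Φ σ Z) (𝒮 : Sys (GOb W)) (hG : IsGeo 𝒮) (A : GOb W)
    (hA : GT Φ A) (hlt : gtau Φ A < gdim A) :
    ∃ U : ∀ n, Module.End W.K (LinearMap.range (gp A n).e),
      (∀ n, U (n + 1) ∘ₗ (te (W := W) A.e (gp A n).e).toLinearMap =
        (te (W := W) A.e (gp A n).e).toLinearMap ∘ₗ TensorProduct.map (U 0) (U n)) ∧
      IsNilpotent (U 0 - 1) ∧ U 0 ≠ 1 ∧ (∀ n, IsNilpotent (U n - 1)) ∧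
      ∀ n, ∃ Q, (gp A n).Z.dim = 2 * Q ∧ LinearMap.range (gp A n).e ≤ genU Φ (gp A n).Z Q ∧
        LinearMap.range (adj (gp A n).e) ≤ genU Φ (gp A n).Z Q ∧
        ∃ s, 0 < s ∧ ∀ t, 0 < t → ∀ hc : fn Φ (gp A n).Z Q (s * t) * (gp A n).e =
          (gp A n).e * fn Φ (gp A n).Z Q (s * t),
          ∃ M, 0 < M ∧ rs (fn Φ (gp A n).Z Q (s * t)) (gp A n).e hc = U n ^ M := by
  have hst : 𝒮.IsStable (GT Φ) :=
    s_STA Φ σ (Pool.Agent.L7h89.RL.s_PRJ Φ σ) hp hK hRH 𝒮 hG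
  obtain ⟨q, hq, hAr⟩ := id hA
  -- the level of the object
  obtain ⟨sc, hsc, hcomm⟩ := s_FRC Φ A.Z
  obtain ⟨ts, hts, hstab⟩ : ∃ t, 0 < t ∧ ∀ s, 0 < s → t ∣ s →
      genTate Φ A.Z s q = genU Φ A.Z q :=
    ⟨_, (exists_stable Φ A.Z q).choose_spec.1, fun s hs h => genU_eq Φ hs h⟩
  set s₀ := sc * ts with hs₀
  have hs₀pos : 0 < s₀ := by positivity
  have hs₀st : genTate Φ A.Z s₀ q = genU Φ A.Z q := hstab _ hs₀pos ⟨sc, mul_comm _ _⟩
  set u := fn Φ A.Z q s₀ with hu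
  have huc : u * A.e = A.e * u := fn_comm Φ (hcomm ts A.e A.mem)
  have huf : frob Φ A.Z s₀ = ((card Φ A.Z s₀ : W.K) ^ q) • u := frob_eq_fn Φ A.Z q s₀
  have hunil : IsNilpotent (rs u A.e huc - 1) := fn_unip Φ hs₀st hAr huc
  have hune : rs u A.e huc ≠ 1 := by
    intro h1
    have h2 : LinearMap.range A.e ≤ tsub Φ A.Z (A.Z.dim / 2) := by
      intro x hx
      apply Submodule.subset_span
      have hd : A.Z.dim / 2 = q := by omega
      rw [hd]
      have h3 : u x = x := by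
        have := congrArg (fun f => ((f ⟨x, hx⟩ : LinearMap.range A.e) : W.H A.Z)) h1
        exact this
      refine ⟨((mem_genTate Φ).1 (hs₀st ▸ hAr hx)).2, s₀, hs₀pos, ?_⟩
      rw [← frob_apply, ← card_pow, huf, LinearMap.smul_apply, h3]
    have h4 : gtau Φ A = gdim A := by
      rw [gtau, inf_of_le_right h2, gdim]
    omega
  -- the powers
  have hUc : ∀ n, uo A u n * (gp A n).e = (gp A n).e * uo A u n := uo_comm A huc
  have hcompat : ∀ n, rs (uo A u (n + 1)) (gp A (n + 1)).e (hUc (n + 1)) ∘ₗ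
      (te (W := W) A.e (gp A n).e).toLinearMap =
      (te (W := W) A.e (gp A n).e).toLinearMap ∘ₗ
        TensorProduct.map (rs u A.e huc) (rs (uo A u n) (gp A n).e (hUc n)) := by
    intro n
    apply LinearMap.ext
    intro x
    apply Subtype.ext
    exact (jj_map A.e (gp A n).e u (uo A u n) huc (hUc n) x).symm
  have hnil : ∀ n, IsNilpotent (rs (uo A u n) (gp A n).e (hUc n) - 1) := by
    intro n
    induction n with
    | zero => exact hunil
    | succ n ih => exact nil_conj (te (W := W) A.e (gp A n).e) (hcompat n) (nil_map hunil ih)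
  refine ⟨fun n => rs (uo A u n) (gp A n).e (hUc n), hcompat, hunil, hune, hnil, fun n => ?_⟩
  -- the objects are in the class
  have hGT : ∀ n, GT Φ (gp A n) := by
    intro n
    rw [← pw_eq hG]
    induction n with
    | zero => exact hA
    | succ n ih => exact hst.ten hA ih
  have hGT' : GT Φ (gdual (gp A n)) := by
    rw [← hG.dual_eq]
    exact hst.dual (hGT n)
  have hQ : (gp A n).Z.dim = 2 * ((n + 1) * q) := by rw [gp_dim, hq]; ring
  have he'U : LinearMap.range (adj (gp A n).e) ≤ genU Φ (gp A n).Z ((n + 1) * q) := by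
    obtain ⟨Q, hQ1, hQ2⟩ := hGT'
    have : Q = (n + 1) * q := by
      have h1 : (gp A n).Z.dim = 2 * Q := hQ1
      omega
    rw [← this]
    exact hQ2
  have heU : LinearMap.range (gp A n).e ≤ genU Φ (gp A n).Z ((n + 1) * q) := by
    obtain ⟨Q, hQ1, hQ2⟩ := hGT n
    have : Q = (n + 1) * q := by omega
    rw [← this]
    exact hQ2
  refine ⟨(n + 1) * q, hQ, heU, he'U, ?_⟩
  obtain ⟨s, m, hs, hm, hsm, hfrob⟩ := frob_uo Φ A hs₀pos huf n
  refine ⟨s, hs, fun t ht hc => ⟨m * t, by positivity, ?_⟩⟩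
  have hfn : fn Φ (gp A n).Z ((n + 1) * q) (s * t) = uo A u n ^ (m * t) := by
    rw [fn, hfrob, smul_smul, inv_mul_cancel₀ (pow_ne_zero _ (card_ne Φ _)), one_smul]
  have hc' : uo A u n ^ (m * t) * (gp A n).e = (gp A n).e * uo A u n ^ (m * t) := by
    rw [← hfn]; exact hc
  rw [rs_congr hc hfn hc', rs_pow]

/-- The numbers of Jordan blocks of the Frobenius endomorphism on the powers. -/
theorem nblk_gp {A : GOb W} {n Q s : ℕ}
    {U : Module.End W.K (LinearMap.range (gp A n).e)} (hU : IsNilpotent (U - 1))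
    (h : ∀ t, 0 < t → ∀ hc : fn Φ (gp A n).Z Q (s * t) * (gp A n).e =
      (gp A n).e * fn Φ (gp A n).Z Q (s * t),
      ∃ M, 0 < M ∧ rs (fn Φ (gp A n).Z Q (s * t)) (gp A n).e hc = U ^ M)
    {t : ℕ} (ht : 0 < t) (hc : fn Φ (gp A n).Z Q (s * t) * (gp A n).e =
      (gp A n).e * fn Φ (gp A n).Z Q (s * t)) (j : ℕ) :
    nblk (rs (fn Φ (gp A n).Z Q (s * t)) (gp A n).e hc - 1) j = nblk (U - 1) j := by
  obtain ⟨M, hM, h1⟩ := h t ht hc
  rw [h1]
  exact nblk_pow hU hM j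

theorem s_NSE (hBLK : S_BLK.{v, v}) (hKER : S_KER.{v, v}) (σ : W.K →+* ℂ) : S_NSE Φ σ := by
  intro hp hK hRH 𝒮 hG A hA hlt
  have hpar := allPar Φ hp σ hRH
  have hsym : ∀ A B : GOb W, gh A B = gh B A := fun A B => by
    rw [← hG.h_eq, ← hG.h_eq, 𝒮.h_symm]
  obtain ⟨U, hcompat, hunil, hune, hnil, hlev⟩ := setup Φ σ hp hK hRH 𝒮 hG A hA hlt
  obtain ⟨C1, hC1, hb1⟩ := hBLK W.K (fun n => LinearMap.range (gp A n).e)
    (fun n => te (W := W) A.e (gp A n).e) U hcompat hunil hune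
  obtain ⟨C2, hC2, hb2⟩ := hKER W.K (fun n => LinearMap.range (gp A n).e)
    (fun n => te (W := W) A.e (gp A n).e) U hcompat hunil hune
  refine ⟨C1 * C2, by positivity, fun n => ?_⟩
  obtain ⟨Q, hQ, heU, he'U, s, hs, hpow⟩ := hlev n
  obtain ⟨w⟩ := exists_wde (KAlg W (gp A n).Z) (gp A n).mem (gp A n).idem
  obtain ⟨D, hD1, hD2⟩ := dec_of_wde' hK hpar (gp A n) w
  obtain ⟨sc, hsc, hcomm⟩ := s_FRC Φ (gp A n).Z
  have hF : ∀ x ∈ KAlg W (gp A n).Z, fn Φ (gp A n).Z Q (s * sc) * x =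
      x * fn Φ (gp A n).Z Q (s * sc) := by
    intro x hx
    apply fn_comm
    rw [mul_comm s sc]
    exact hcomm s x hx
  have hc := hF _ (gp A n).mem
  have hnb := fun j => nblk_gp Φ (hnil n) hpow hsc hc j
  obtain ⟨M, hM, hpw⟩ := hpow sc hsc hc
  have hnilF : IsNilpotent (rs (fn Φ (gp A n).Z Q (s * sc)) (gp A n).e hc - 1) := by
    rw [hpw]
    exact nil_pow (hnil n) M
  set H : ℤ := ⌊C1 * (finrank W.K (LinearMap.range (gp A 0).e) : ℝ) ^ (n + 1) / (n + 1)⌋ with hH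
  have hm : ∀ c, (D.m c : ℤ) ≤ H := by
    intro c
    obtain ⟨c', hc'⟩ := hD2 c
    rw [hc']
    refine mult_le w hF hc hnilF (fun j hj => ?_) c'
    rw [hnb j]
    exact Int.le_floor.2 (hb1 n j hj)
  have hmR : ∀ c, (D.m c : ℝ) ≤
      C1 * (finrank W.K (LinearMap.range (gp A 0).e) : ℝ) ^ (n + 1) / (n + 1) := by
    intro c
    have h1 : ((D.m c : ℤ) : ℝ) ≤ (H : ℝ) := by exact_mod_cast hm c
    have h2 := Int.floor_le
      (C1 * (finrank W.K (LinearMap.range (gp A 0).e) : ℝ) ^ (n + 1) / (n + 1))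
    rw [Int.cast_natCast] at h1
    exact h1.trans h2
  have hcard : (Fintype.card w.I : ℝ) ≤
      C2 * (finrank W.K (LinearMap.range (gp A 0).e) : ℝ) ^ (n + 1) / √(n + 1) := by
    refine le_trans ?_ (hb2 n)
    have h1 := card_le_ker w hF hc hnilF
    have h2 : finrank W.K (LinearMap.ker (rs (fn Φ (gp A n).Z Q (s * sc)) (gp A n).e hc - 1)) =
        finrank W.K (LinearMap.ker (U n - 1)) := by
      rw [hpw, ker_pow (hnil n) hM]
    rw [h2] at h1
    exact_mod_cast h1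
  have e1 : 𝒮.h (𝒮.pw A n) (𝒮.pw A n) = ∑ c, D.m c ^ 2 := by
    rw [hG.h_eq, pw_eq hG, gh_self hsym D]
  rw [e1]
  push_cast
  have hz : (finrank W.K (LinearMap.range (gp A 0).e) : ℝ) = gdim A := rfl
  rw [hz] at hmR hcard
  calc ∑ c, (D.m c : ℝ) ^ 2 ≤ ∑ c, (C1 * (gdim A : ℝ) ^ (n + 1) / (n + 1)) * (D.m c : ℝ) := by
        refine Finset.sum_le_sum fun c _ => ?_
        rw [pow_two]
        exact mul_le_mul_of_nonneg_right (hmR c) (Nat.cast_nonneg _)
    _ = (C1 * (gdim A : ℝ) ^ (n + 1) / (n + 1)) * (Fintype.card w.I : ℝ) := by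
        rw [← Finset.mul_sum, ← hD1]
        push_cast
        rfl
    _ ≤ (C1 * (gdim A : ℝ) ^ (n + 1) / (n + 1)) * (C2 * (gdim A : ℝ) ^ (n + 1) / √(n + 1)) := by
        gcongr
    _ = C1 * C2 * (gdim A : ℝ) ^ (2 * (n + 1)) / ((n : ℝ) + 1) ^ (3 / 2 : ℝ) := by
        have h1 : ((n : ℝ) + 1) ^ (3 / 2 : ℝ) = ((n : ℝ) + 1) * √((n : ℝ) + 1) := by
          rw [Real.sqrt_eq_rpow, show (3 / 2 : ℝ) = 1 + 1 / 2 by norm_num,
            Real.rpow_add (by positivity), Real.rpow_one]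
        rw [h1, two_mul (n + 1), pow_add, div_mul_div_comm]
        congr 1
        ring

theorem s_NSM (hBLK : S_BLK.{v, v}) (hBLT : S_BLT.{v, v}) (σ : W.K →+* ℂ) : S_NSM Φ σ := by
  intro hp hK hRH 𝒮 hG A hA hlt
  have hpar := allPar Φ hp σ hRH
  have hsym : ∀ A B : GOb W, gh A B = gh B A := fun A B => by
    rw [← hG.h_eq, ← hG.h_eq, 𝒮.h_symm]
  obtain ⟨U, hcompat, hunil, hune, hnil, hlev⟩ := setup Φ σ hp hK hRH 𝒮 hG A hA hlt
  obtain ⟨C1, hC1, hb1⟩ := hBLK W.K (fun n => LinearMap.range (gp A n).e)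
    (fun n => te (W := W) A.e (gp A n).e) U hcompat hunil hune
  refine ⟨C1, hC1, fun n S hS => ?_⟩
  obtain ⟨Q, hQ, heU, he'U, s, hs, hpow⟩ := hlev n
  set P := gp A n with hP
  set B : GOb W := gten P (gdual P) with hB
  obtain ⟨w⟩ := exists_wde (KAlg W B.Z) B.mem B.idem
  obtain ⟨D, hD1, hD2⟩ := dec_of_wde' hK hpar B w
  -- the level
  obtain ⟨sc, hsc, hcomm⟩ := s_FRC Φ P.Z
  obtain ⟨sd, hsd, hcommB⟩ := s_FRC Φ B.Z
  obtain ⟨ts, hts, hstab⟩ : ∃ t, 0 < t ∧ ∀ s, 0 < s → t ∣ s →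
      genTate Φ P.Z s Q = genU Φ P.Z Q :=
    ⟨_, (exists_stable Φ P.Z Q).choose_spec.1, fun s hs h => genU_eq Φ hs h⟩
  obtain ⟨s1, s2, s3, h1, h2, h3, e12, e13, hfr⟩ := frob_prod (W := W) Φ P.Z P.Z
  have e23 : s2 = s3 := Nat.eq_of_mul_eq_mul_right (Φ.e_pos P.Z) (by rw [← e12, e13])
  subst e23
  set t : ℕ := s2 * (sc * (ts * sd)) with ht
  have htpos : 0 < t := by positivity
  set F : Module.End W.K (W.H P.Z) := fn Φ P.Z Q (s * t) with hFdef
  have hF : ∀ x ∈ KAlg W P.Z, F * x = x * F := by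
    intro x hx
    apply fn_comm
    have := hcomm (s * (s2 * (ts * sd))) x hx
    rwa [show sc * (s * (s2 * (ts * sd))) = s * t by rw [ht]; ring] at this
  have hst : genTate Φ P.Z (s * t) Q = genU Φ P.Z Q :=
    hstab _ (by positivity) ⟨s * (s2 * (sc * sd)), by rw [ht]; ring⟩
  have hc : F * P.e = P.e * F := hF _ P.mem
  have hc' : F * adj P.e = adj P.e * F := hF _ (adj_mem P.mem)
  have hnb := fun j => nblk_gp Φ (hnil n) hpow htpos hc j
  have hn1 : IsNilpotent (rs F P.e hc - 1) := fn_unip Φ hst heU hc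
  have hn2 : IsNilpotent (rs F (adj P.e) hc' - 1) := fn_unip Φ hst he'U hc'
  -- the operator on the product
  set G : Module.End W.K (W.H B.Z) := extOp W F F with hGdef
  have hGfr : frob Φ B.Z (s1 * (s * (sc * (ts * sd)))) =
      ((card Φ P.Z (s * t) : W.K) ^ (2 * Q)) • G := by
    have h4 := hfr (s * (sc * (ts * sd)))
    have h5 : s2 * (s * (sc * (ts * sd))) = s * t := by rw [ht]; ring
    rw [h5, frob_eq_fn Φ P.Z Q (s * t)] at h4
    rw [extOp_smul_left, extOp_smul_right, smul_smul, ← pow_add, ← two_mul] at h4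
    exact h4
  have hGc : ∀ x ∈ KAlg W B.Z, G * x = x * G := by
    intro x hx
    have h4 := hcommB (s1 * (s * (sc * ts))) x hx
    rw [show sd * (s1 * (s * (sc * ts))) = s1 * (s * (sc * (ts * sd))) by ring, hGfr,
      smul_mul_assoc, mul_smul_comm] at h4
    exact smul_right_injective _ (pow_ne_zero (2 * Q) (card_ne Φ (s * t))) h4
  have hGe : G * B.e = B.e * G := hGc _ B.mem
  have hconj : rs G B.e hGe ∘ₗ (te (W := W) P.e (adj P.e)).toLinearMap =
      (te (W := W) P.e (adj P.e)).toLinearMap ∘ₗ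
        TensorProduct.map (rs F P.e hc) (rs F (adj P.e) hc') := by
    apply LinearMap.ext
    intro x
    apply Subtype.ext
    exact (jj_map P.e (adj P.e) F F hc hc' x).symm
  have hnilG : IsNilpotent (rs G B.e hGe - 1) :=
    nil_conj (te (W := W) P.e (adj P.e)) hconj (nil_map hn1 hn2)
  set H : ℤ := ⌊C1 * (finrank W.K (LinearMap.range (gp A 0).e) : ℝ) ^ (n + 1) / (n + 1)⌋ with hH
  have hblk : ∀ j, 1 ≤ j → nblk (rs G B.e hGe - 1) j ≤
      finrank W.K (LinearMap.range (adj P.e)) * H := by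
    intro j hj
    refine blk_tensor hBLT (rs F P.e hc) (rs F (adj P.e) hc') (te (W := W) P.e (adj P.e))
      (rs G B.e hGe) hconj hn1 hn2 H (fun i hi => ?_) j hj
    rw [hnb i]
    exact Int.le_floor.2 (hb1 n i hi)
  have hfr' : finrank W.K (LinearMap.range (adj P.e)) = gdim A ^ (n + 1) := by
    rw [finrank_range_adj]
    exact gdim_gp A n
  rw [hfr'] at hblk
  have hm : ∀ c, (D.m c : ℤ) ≤ ((gdim A ^ (n + 1) : ℕ) : ℤ) * H := by
    intro c
    obtain ⟨c', hc'⟩ := hD2 c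
    rw [hc']
    exact mult_le w hGc hGe hnilG hblk c'
  have hSc : gh S S = 1 := by rw [← hG.h_eq]; exact hS
  by_cases hCe : IsEmpty D.C
  · have h4 : gh S B ≤ 0 := gh_simple hsym D hSc (fun c => (hCe.false c).elim)
    rw [hG.h_eq, wq_eq hG]
    have h5 : gh S B = 0 := Nat.le_zero.1 h4
    have h6 : gh S (gten (gp A n) (gdual (gp A n))) = 0 := h5
    rw [h6, Nat.cast_zero]
    positivity
  · rw [not_isEmpty_iff] at hCe
    obtain ⟨c0⟩ := hCe
    have h0 : (0 : ℤ) ≤ ((gdim A ^ (n + 1) : ℕ) : ℤ) * H := le_trans (Int.natCast_nonneg _) (hm c0)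
    obtain ⟨H', hH'⟩ := Int.eq_ofNat_of_zero_le h0
    have h4 : gh S B ≤ H' := gh_simple hsym D hSc (fun c => by
      have := hm c
      rw [hH'] at this
      exact_mod_cast this)
    rw [hG.h_eq, wq_eq hG]
    have h5 : (gh S (gten (gp A n) (gdual (gp A n))) : ℝ) ≤ (H' : ℝ) := by exact_mod_cast h4
    refine h5.trans ?_
    have h6 : (H' : ℝ) = ((gdim A : ℝ) ^ (n + 1)) * (H : ℝ) := by
      have : ((H' : ℤ) : ℝ) = ((((gdim A ^ (n + 1) : ℕ) : ℤ) * H : ℤ) : ℝ) := by rw [hH']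
      push_cast at this
      exact this
    rw [h6]
    have h7 : (H : ℝ) ≤ C1 * (gdim A : ℝ) ^ (n + 1) / (n + 1) := Int.floor_le _
    calc (gdim A : ℝ) ^ (n + 1) * (H : ℝ)
        ≤ (gdim A : ℝ) ^ (n + 1) * (C1 * (gdim A : ℝ) ^ (n + 1) / (n + 1)) := by gcongr
      _ = C1 * (gdim A : ℝ) ^ (2 * (n + 1)) / ((n : ℝ) + 1) := by
          rw [two_mul (n + 1), pow_add]; ring

end Pool.Agent.L7h73.RL
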