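import Pool.Agent.L7h73.RL.Frc
import Pool.Agent.L7h85.RL.Stm4

/-!
# Generalised Tate classes which are not Tate classes
-/

set_option linter.unusedVariables false
set_option linter.unusedSectionVars false

open CategoryTheory AlgebraicGeometry CategoryTheory.Limits

universe u v

namespace Pool.Agent.L7h73.RL

section Lin

open Module Polynomial

variable {K V : Type*} [Field K] [IsAlgClosed K] [AddCommGroup V] [Module K V] [Module.Finite K V]

/-- An operator which is not semisimple has a Jordan block of size at least two. -/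
lemma exists_jordan {F : End K V} (h : ¬ F.IsSemisimple) : ∃ (l : K) (x : V),
    (F - l • (1 : End K V)) ((F - l • (1 : End K V)) x) = 0 ∧
      (F - l • (1 : End K V)) x ≠ 0 := by
  classical
  by_contra hcon
  push Not at hcon
  apply h
  set S := F.charpoly.roots.toFinset with hS
  set P : K[X] := ∏ l ∈ S, (X - C l) with hP
  have hsq : Squarefree P :=
    (Polynomial.separable_prod_X_sub_C_iff'.2 (fun x _ y _ h => h)).squarefree
  refine Module.End.isSemisimple_of_squarefree_aeval_eq_zero hsq ?_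
  have hmax : ∀ l : K, F.maxGenEigenspace l ≤ LinearMap.ker (aeval F P) := by
    intro l x hx
    rw [Module.End.mem_maxGenEigenspace] at hx
    obtain ⟨n, hn⟩ := hx
    have h1 : (F - l • (1 : End K V)) x = 0 :=
      Pool.Agent.W534.ker_of_sq (f := F - l • (1 : End K V)) (fun x hx => hcon l x hx) hn
    by_cases hx0 : x = 0
    · rw [hx0]; exact Submodule.zero_mem _
    have h2 : F x = l • x := by
      rw [LinearMap.sub_apply, LinearMap.smul_apply, Module.End.one_apply, sub_eq_zero] at h1
      exact h1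
    have h3 : F.HasEigenvector l x := ⟨Module.End.mem_eigenspace_iff.2 h2, hx0⟩
    have h4 : F.HasEigenvalue l := Module.End.hasEigenvalue_of_hasEigenvector h3
    have h5 : F.charpoly.IsRoot l := (Module.End.hasEigenvalue_iff_isRoot_charpoly F l).1 h4
    have h6 : l ∈ S := by
      rw [hS, Multiset.mem_toFinset, Polynomial.mem_roots F.charpoly_monic.ne_zero]
      exact h5
    rw [LinearMap.mem_ker, Module.End.aeval_apply_of_hasEigenvector h3]
    have h7 : P.eval l = 0 := by
      rw [hP, Polynomial.eval_prod]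
      exact Finset.prod_eq_zero h6 (by simp)
    rw [h7, zero_smul]
  have htop : (⊤ : Submodule K V) ≤ LinearMap.ker (aeval F P) := by
    rw [← Module.End.iSup_maxGenEigenspace_eq_top F]
    exact iSup_le hmax
  apply LinearMap.ext
  intro x
  exact htop (Submodule.mem_top (x := x))

lemma pow_jordan {K V : Type*} [Field K] [AddCommGroup V] [Module K V] {F : End K V} {l : K}
    {x x' : V} (h1 : F x = l • x + x') (h2 : F x' = l • x') (m : ℕ) :
    (F ^ (m + 1)) x = l ^ (m + 1) • x + ((m + 1 : ℕ) : K) • l ^ m • x' := by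
  have h3 : ∀ m : ℕ, (F ^ m) x' = l ^ m • x' := by
    intro m
    induction m with
    | zero => simp
    | succ m ih => rw [pow_succ', Module.End.mul_apply, ih, map_smul, h2, smul_smul, pow_succ]
  induction m with
  | zero => simp [h1]
  | succ m ih =>
    rw [pow_succ, Module.End.mul_apply, h1, map_add, map_smul, ih, h3, smul_add, smul_smul,
      smul_comm l, smul_smul l (l ^ m), ← pow_succ', ← pow_succ', add_assoc,
      show ((m + 1 + 1 : ℕ) : K) = ((m + 1 : ℕ) : K) + 1 by push_cast; ring, add_smul, one_smul]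

end Lin

open Pool.Agent.H914 Pool.Agent.H447 Pool.Agent.W534 VarClass Obj WeilCohomology Module
open Pool.Agent.Y163 Pool.Agent.L7h85.RL

variable {k : Type u} [Field k] {𝒱 : VarClass k} {ops : CycleOps 𝒱}
  {W : WeilCohomology.{u, v} ops} {X Y Z : 𝒱.Obj} {p : ℕ} (Φ : FrobSystem W p)

lemma mem_tsub {j : ℕ} {c : W.H Z} (hc : c ∈ tsub Φ Z j) : IsTate Φ Z j c := by
  induction hc using Submodule.span_induction with
  | mem x hx => exact hx
  | zero => exact (tateFam Φ).zero Z j
  | add x y _ _ hx hy => exact (tateFam Φ).add hx hy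
  | smul a x _ hx =>
    obtain ⟨h1, s, hs, h2⟩ := hx
    refine ⟨Submodule.smul_mem _ _ h1, s, hs, ?_⟩
    rw [map_smul, h2, smul_comm]

lemma tsub_le (j : ℕ) : tsub Φ Z j ≤ genU Φ Z j := by
  rw [tsub, Submodule.span_le]
  intro c hc
  exact (mem_genU Φ).2 (IsTate.mem Φ hc)

/-- External products of non-zero classes are not zero. -/
lemma ext_ne {a : W.H Y} {b : W.H Z} (ha : a ≠ 0) (hb : b ≠ 0) :
    W.map (fst Y Z) a * W.map (snd Y Z) b ≠ 0 := by
  rw [← kappa_tmul]
  intro h0
  have h1 : a ⊗ₜ[W.K] b = 0 := (kappa W Y Z).injective (by rw [h0, map_zero])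
  obtain ⟨φ, hφ⟩ : ∃ φ : Module.Dual W.K (W.H Y), φ a ≠ 0 := by
    by_contra hcon
    push Not at hcon
    exact ha ((Module.forall_dual_apply_eq_zero_iff W.K a).1 hcon)
  have h2 := congrArg (fun z => TensorProduct.lid W.K (W.H Z) (φ.rTensor (W.H Z) z)) h1
  simp only [LinearMap.rTensor_tmul, TensorProduct.lid_tmul, map_zero] at h2
  exact (smul_ne_zero hφ hb) h2

theorem s_NSX (σ : W.K →+* ℂ) : S_NSX Φ σ := by
  intro hp hK hRH X hss
  set F := frob Φ X 1 with hF
  have hFF : (W.map (Φ.Fr X)).toLinearMap = F := by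
    rw [hF, frob]
    congr 2
  rw [hFF] at hss
  obtain ⟨l, x, hx2, hx1⟩ := exists_jordan hss
  set x' := (F - l • (1 : Module.End W.K (W.H X))) x with hx'
  have hFx : F x = l • x + x' := by
    rw [hx', LinearMap.sub_apply, LinearMap.smul_apply, Module.End.one_apply]; abel
  have hFx' : F x' = l • x' := by
    rw [LinearMap.sub_apply, LinearMap.smul_apply, Module.End.one_apply, sub_eq_zero] at hx2
    exact hx2
  have hFinj : Function.Injective F := by
    have := frob_pow_injective Φ (Z := X) 1 1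
    rwa [pow_one] at this
  have hl : l ≠ 0 := by
    rintro rfl
    rw [zero_smul] at hFx'
    exact hx1 (hFinj (by rw [hFx', map_zero]))
  have hx0 : x ≠ 0 := by
    rintro rfl
    exact hx1 (by rw [hx', map_zero])
  set Q : W.K := (card Φ X 1 : W.K) ^ X.dim with hQ
  have hQ0 : Q ≠ 0 := pow_ne_zero _ (card_ne Φ _)
  -- the dual eigenvector
  obtain ⟨y, hy0, hy⟩ : ∃ y : W.H X, y ≠ 0 ∧ Y163.adj F y = l • y := by
    have h1 : ¬ Function.Injective (Y163.adj (F - l • (1 : Module.End W.K (W.H X)))) := by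
      intro hinj
      have h2 := LinearMap.finrank_range_of_inj hinj
      rw [finrank_range_adj] at h2
      have h3 : LinearMap.range (F - l • (1 : Module.End W.K (W.H X))) = ⊤ :=
        Submodule.eq_top_of_finrank_eq h2
      have h4 : Function.Injective (F - l • (1 : Module.End W.K (W.H X))) :=
        LinearMap.injective_iff_surjective.2 (LinearMap.range_eq_top.1 h3)
      exact hx1 (h4 (by rw [hx2, map_zero]))
    rw [injective_iff_map_eq_zero] at h1
    push Not at h1
    obtain ⟨y, hy1, hy2⟩ := h1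
    refine ⟨y, hy2, ?_⟩
    rw [adj_sub, adj_smul, adj_one, LinearMap.sub_apply, LinearMap.smul_apply,
      Module.End.one_apply, sub_eq_zero] at hy1
    exact hy1
  set l' : W.K := Q / l with hl'
  have hll : l * l' = Q := by rw [hl']; field_simp
  have hFy : F y = l' • y := by
    have h1 := congrArg (fun f => f y) (Pool.Agent.L7h89.RL.frob_mul_adj (W := W) Φ (Z := X) 1)
    simp only [Module.End.mul_apply, LinearMap.smul_apply, Module.End.one_apply] at h1
    rw [← hF, hy, map_smul, ← hQ] at h1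
    have h2 := congrArg (fun v => l⁻¹ • v) h1
    simp only [smul_smul, inv_mul_cancel₀ hl, one_smul] at h2
    rw [h2, hl', div_eq_inv_mul]
  have hl'0 : l' ≠ 0 := div_ne_zero hQ0 hl
  -- degrees
  have hN : Deg0 ((F - l • (1 : Module.End W.K (W.H X))) ^ 2) := by
    have h1 : Deg0 (F - l • (1 : Module.End W.K (W.H X))) := by
      intro j a ha
      rw [LinearMap.sub_apply, LinearMap.smul_apply, Module.End.one_apply]
      exact Submodule.sub_mem _ (W.map_mem _ ha) (Submodule.smul_mem _ _ ha)
    intro j a ha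
    rw [pow_two, Module.End.mul_apply]
    exact h1 j _ (h1 j a ha)
  have hx3 : ((F - l • (1 : Module.End W.K (W.H X))) ^ 2) x = 0 := by
    rw [pow_two, Module.End.mul_apply]; exact hx2
  obtain ⟨i, hi⟩ : ∃ i, proj (W.isInternal X) i x ≠ 0 := by
    by_contra hcon
    push Not at hcon
    apply hx0
    rw [← Pool.Agent.L7h89.RL.sum_proj' (W := W) x]
    exact Finset.sum_eq_zero fun i _ => hcon i
  have hil : i ≤ 2 * X.dim := by
    by_contra hcon
    apply hi
    have h1 := proj_mem (W.isInternal X) i x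
    rw [W.gr_eq_bot X i (by omega)] at h1
    exact (Submodule.mem_bot _).1 h1
  have hσl : ‖σ l‖ ^ 2 = (card Φ X 1 : ℝ) ^ i :=
    Pool.Agent.L7h89.RL.norm_of_eig Φ (hRH X) one_pos (proj_mem (W.isInternal X) i x) hi
      (M := 2) (by rw [← Pool.Agent.L7h89.RL.proj_comm hN, hx3, map_zero])
  have hxg : x ∈ W.gr X i := Pool.Agent.L7h89.RL.gr_of_eig Φ hp (hRH X) one_pos hσl (M := 2) hx3
  have hσl' : ‖σ l'‖ ^ 2 = (card Φ X 1 : ℝ) ^ (2 * X.dim - i) := by
    have h1 : ‖σ l‖ ^ 2 * ‖σ l'‖ ^ 2 = (card Φ X 1 : ℝ) ^ (2 * X.dim) := by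
      rw [← mul_pow, ← norm_mul, ← map_mul, hll, hQ, map_pow, map_natCast, norm_pow,
        Complex.norm_natCast, ← pow_mul, mul_comm X.dim 2]
    have hc : (0 : ℝ) < card Φ X 1 := by exact_mod_cast card_pos Φ (Z := X) 1
    rw [hσl, show 2 * X.dim = i + (2 * X.dim - i) by omega, pow_add] at h1
    exact mul_left_cancel₀ (pow_pos hc i).ne' h1
  have hyg : y ∈ W.gr X (2 * X.dim - i) :=
    Pool.Agent.L7h89.RL.gr_of_eig Φ hp (hRH X) one_pos hσl' (M := 1) (by
      rw [pow_one, LinearMap.sub_apply, LinearMap.smul_apply, Module.End.one_apply, ← hF, hFy,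
        sub_self])
  -- the product
  obtain ⟨s1, s2, s3, hs1, hs2, hs3, h12, h13, hfr⟩ := frob_prod Φ X X
  have h23 : s2 = s3 := Nat.eq_of_mul_eq_mul_right (Φ.e_pos X) (h12.symm.trans h13)
  subst h23
  have hFpow : ∀ s, frob Φ X s = F ^ s := by
    intro s
    have := frob_mul_eq (W := W) Φ (Z := X) 1 s
    rwa [one_mul] at this
  have hFy' : ∀ s : ℕ, (F ^ s) y = l' ^ s • y := by
    intro s
    induction s with
    | zero => simp
    | succ s ih => rw [pow_succ', Module.End.mul_apply, ih, map_smul, hFy, smul_smul, pow_succ]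
  have hcard : ∀ t, (card Φ (X.prod X) (s1 * t) : W.K) ^ X.dim = (l * l') ^ (s2 * t) := by
    intro t
    rw [card_eq_of Φ h12]
    have h1 : card Φ X (s2 * t) = card Φ X 1 ^ (s2 * t) := by
      have := card_mul_eq Φ (Z := X) 1 (s2 * t)
      rwa [one_mul] at this
    rw [h1, hll, hQ]
    push_cast
    rw [← pow_mul, ← pow_mul, mul_comm]
  have hdim : ∀ (t : ℕ) (v : W.H X),
      (frob Φ (X.prod X) (s1 * t) - ((card Φ (X.prod X) (s1 * t) : W.K) ^ X.dim) •
        (1 : Module.End W.K (W.H (X.prod X)))) (W.map (fst X X) v * W.map (snd X X) y) =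
      l' ^ (s2 * t) • (W.map (fst X X)
        ((F ^ (s2 * t) - (l ^ (s2 * t)) • (1 : Module.End W.K (W.H X))) v) *
          W.map (snd X X) y) := by
    intro t v
    rw [hcard, hfr, hFpow, LinearMap.sub_apply, LinearMap.smul_apply, Module.End.one_apply,
      extOp_tmul, hFy', LinearMap.sub_apply, LinearMap.smul_apply, Module.End.one_apply, map_smul,
      map_sub, map_smul, sub_mul, smul_sub, mul_smul_comm, smul_mul_assoc, smul_smul, mul_pow,
      mul_comm (l ^ _)]
  have hdimn : ∀ (t n : ℕ) (v : W.H X),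
      ((frob Φ (X.prod X) (s1 * t) - ((card Φ (X.prod X) (s1 * t) : W.K) ^ X.dim) •
        (1 : Module.End W.K (W.H (X.prod X)))) ^ n) (W.map (fst X X) v * W.map (snd X X) y) =
      (l' ^ (s2 * t)) ^ n • (W.map (fst X X)
        (((F ^ (s2 * t) - (l ^ (s2 * t)) • (1 : Module.End W.K (W.H X))) ^ n) v) *
          W.map (snd X X) y) := by
    intro t n
    induction n with
    | zero => intro v; simp
    | succ n ih =>
      intro v
      rw [pow_succ, Module.End.mul_apply, hdim, map_smul, ih, smul_smul, ← pow_succ',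
        pow_succ (F ^ (s2 * t) - _), Module.End.mul_apply]
  set z := W.map (fst X X) x * W.map (snd X X) y with hz
  refine lt_of_le_of_ne (tsub_le Φ _) ?_
  intro heq
  have hzU : z ∈ genU Φ (X.prod X) X.dim := by
    refine (mem_genU Φ).2 ⟨s1, hs1, ?_⟩
    obtain ⟨n, hn⟩ : ∃ n : ℕ,
        ((F ^ (s2 * 1) - (l ^ (s2 * 1)) • (1 : Module.End W.K (W.H X))) ^ n) x = 0 := by
      have h1 : x ∈ F.maxGenEigenspace l := by
        rw [Module.End.mem_maxGenEigenspace]
        exact ⟨2, hx3⟩
      have h2 := gen_mono F l (s2 * 1) h1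
      rw [Module.End.mem_maxGenEigenspace] at h2
      exact h2
    refine (mem_genTate Φ).2 ⟨⟨n, ?_⟩, ?_⟩
    · have h1 := hdimn 1 n x
      rw [hn, map_zero, zero_mul, smul_zero, mul_one] at h1
      exact h1
    · have := W.mul_mem (W.map_mem (fst X X) hxg) (W.map_mem (snd X X) hyg)
      rwa [show i + (2 * X.dim - i) = 2 * X.dim by omega] at this
  rw [← heq] at hzU
  obtain ⟨-, s, hs, hts⟩ := mem_tsub Φ hzU
  have h1 : frob Φ (X.prod X) s z = ((card Φ (X.prod X) s : W.K) ^ X.dim) • z := by
    rw [card_pow]; exact hts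
  have h2 := span_eig_mul' Φ h1 s1
  have h3 := hdim s x
  rw [LinearMap.sub_apply, LinearMap.smul_apply, Module.End.one_apply, ← hz, h2, sub_self] at h3
  have h4 := (smul_eq_zero.1 h3.symm).resolve_left (pow_ne_zero _ hl'0)
  have h5 : (F ^ (s2 * s) - (l ^ (s2 * s)) • (1 : Module.End W.K (W.H X))) x ≠ 0 := by
    obtain ⟨m, hm⟩ : ∃ m, s2 * s = m + 1 := ⟨s2 * s - 1, by have := Nat.mul_pos hs2 hs; omega⟩
    rw [hm, LinearMap.sub_apply, LinearMap.smul_apply, Module.End.one_apply,
      pow_jordan hFx hFx' m, add_sub_cancel_left]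
    exact smul_ne_zero (Nat.cast_ne_zero.2 (Nat.succ_ne_zero m))
      (smul_ne_zero (pow_ne_zero _ hl) hx1)
  exact ext_ne h5 hy0 h4

end Pool.Agent.L7h73.RL
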