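import Pool.Agent.L7h85.RL.Stm4
import Pool.Agent.L7h85.RL.DecA
import Pool.Agent.L7h89.RL.Tns0

/-!
# Jordan blocks and multiplicities
-/

set_option autoImplicit false
set_option linter.unusedVariables false

open TensorProduct

namespace Pool.Agent.L7h73.RL

open Module Finset Pool.Agent.Y163 Pool.Agent.L7h85.RL
open Pool.Agent.L7h89.RL (rs rs_coe rs_sub_pow_coe)

section Nil

variable {K : Type*} [Field K] {V V' : Type*} [AddCommGroup V] [Module K V] [AddCommGroup V']
  [Module K V']

lemma fmap_eq {f : V →ₗ[K] V'} (p : Submodule K V) (hf : Function.Injective f) :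
    finrank K (p.map f) = finrank K p :=
  (LinearEquiv.finrank_eq (Submodule.equivMapOfInjective f hf p)).symm

/-- a nilpotent operator on a non-zero space is not injective -/
lemma ker_ne_bot [Nontrivial V] {N : End K V} (hN : IsNilpotent N) : LinearMap.ker N ≠ ⊥ := by
  intro h
  obtain ⟨M, hM⟩ := hN
  have h6 : Function.Injective N := LinearMap.ker_eq_bot.1 h
  have h7 : ∀ n : ℕ, Function.Injective (N ^ n : End K V) := by
    intro n
    induction n with
    | zero => exact fun x y h => h
    | succ n ih => rw [pow_succ]; exact ih.comp h6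
  obtain ⟨x, hx⟩ := exists_ne (0 : V)
  apply hx
  apply h7 M
  rw [hM, LinearMap.zero_apply, LinearMap.zero_apply]

/-- the differences of the ranks of the powers -/
noncomputable def dd (N : End K V) (j : ℕ) : ℤ :=
  (finrank K (LinearMap.range (N ^ j)) : ℤ) - finrank K (LinearMap.range (N ^ (j + 1)))

lemma nblk_succ (N : End K V) (j : ℕ) : nblk N (j + 1) = dd N j - dd N (j + 1) := by
  unfold nblk dd
  rw [Nat.add_sub_cancel]
  ring

variable [Module.Finite K V]

lemma dd_eq (N : End K V) (j : ℕ) :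
    dd N j = finrank K (LinearMap.ker N ⊓ LinearMap.range (N ^ j) : Submodule K V) := by
  have h1 := LinearMap.finrank_range_add_finrank_ker (N.domRestrict (LinearMap.range (N ^ j)))
  have h2 : LinearMap.range (N.domRestrict (LinearMap.range (N ^ j))) =
      LinearMap.range (N ^ (j + 1)) := by
    rw [LinearMap.range_domRestrict, ← LinearMap.range_comp, pow_succ']
    rfl
  have h3 : finrank K (LinearMap.ker (N.domRestrict (LinearMap.range (N ^ j)))) =
      finrank K (LinearMap.ker N ⊓ LinearMap.range (N ^ j) : Submodule K V) := by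
    have h4 : (LinearMap.ker (N.domRestrict (LinearMap.range (N ^ j)))).map
        (LinearMap.range (N ^ j)).subtype = LinearMap.ker N ⊓ LinearMap.range (N ^ j) := by
      ext x
      rw [Submodule.mem_map, Submodule.mem_inf]
      constructor
      · rintro ⟨y, hy, rfl⟩
        exact ⟨hy, y.2⟩
      · rintro ⟨hx1, hx2⟩
        exact ⟨⟨x, hx2⟩, hx1, rfl⟩
    rw [← h4]
    exact (fmap_eq _ (Submodule.subtype_injective _)).symm
  rw [h2, h3] at h1
  unfold dd
  omega

lemma dd_nonneg (N : End K V) (j : ℕ) : 0 ≤ dd N j := by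
  rw [dd_eq]; positivity

lemma nblk_nonneg (N : End K V) {j : ℕ} (hj : 1 ≤ j) : 0 ≤ nblk N j := by
  obtain ⟨i, rfl⟩ : ∃ i, j = i + 1 := ⟨j - 1, by omega⟩
  rw [nblk_succ, dd_eq, dd_eq, sub_nonneg]
  have : (LinearMap.ker N ⊓ LinearMap.range (N ^ (i + 1)) : Submodule K V) ≤
      LinearMap.ker N ⊓ LinearMap.range (N ^ i) := by
    refine inf_le_inf le_rfl ?_
    rintro _ ⟨x, rfl⟩
    exact ⟨N x, by rw [pow_succ, Module.End.mul_apply]⟩
  exact_mod_cast Submodule.finrank_mono this

/-- a nilpotent operator on a non-zero space has a Jordan block -/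
lemma exists_blk [Nontrivial V] {N : End K V} (hN : IsNilpotent N) :
    ∃ j, 1 ≤ j ∧ 1 ≤ nblk N j := by
  by_contra hcon
  push Not at hcon
  have h5 := ker_ne_bot hN
  obtain ⟨M, hM⟩ := hN
  have h1 : ∀ j, dd N j ≤ dd N (j + 1) := by
    intro j
    have := hcon (j + 1) (by omega)
    rw [nblk_succ] at this
    omega
  have h2 : dd N 0 ≤ dd N M := monotone_nat_of_le_succ h1 (Nat.zero_le M)
  have h3 : dd N M = 0 := by
    unfold dd
    rw [pow_succ, hM, zero_mul, sub_self]
  have h4 : 0 < dd N 0 := by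
    rw [dd_eq, pow_zero]
    have h6 : (LinearMap.ker N ⊓ LinearMap.range (1 : End K V) : Submodule K V) =
        LinearMap.ker N := by
      rw [inf_eq_left]
      intro x _
      exact ⟨x, rfl⟩
    rw [h6]
    have h7 := Submodule.one_le_finrank_iff.2 h5
    omega
  omega

/-- invariance under conjugation -/
lemma nblk_conj (E : V ≃ₗ[K] V') {f : End K V} {g : End K V'}
    (h : g ∘ₗ E.toLinearMap = E.toLinearMap ∘ₗ f) (j : ℕ) : nblk (g - 1) j = nblk (f - 1) j := by
  have h0 : ∀ x, g (E x) = E (f x) := fun x => congrArg (fun F => F x) h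
  have h1 : ∀ (N : ℕ) (x : V), ((g - 1) ^ N) (E x) = E (((f - 1) ^ N) x) := by
    intro N
    induction N with
    | zero => intro x; rfl
    | succ N ih =>
      intro x
      have h2 : (g - 1) (E x) = E ((f - 1) x) := by
        rw [LinearMap.sub_apply, LinearMap.sub_apply, Module.End.one_apply, Module.End.one_apply,
          h0, map_sub]
      rw [pow_succ, pow_succ, Module.End.mul_apply, Module.End.mul_apply, ← ih, h2]
  have h2 : ∀ N : ℕ, finrank K (LinearMap.range ((g - 1) ^ N)) =
      finrank K (LinearMap.range ((f - 1) ^ N)) := by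
    intro N
    have h3 : LinearMap.range ((g - 1) ^ N) =
        (LinearMap.range ((f - 1) ^ N)).map (E : V →ₗ[K] V') := by
      ext y
      rw [Submodule.mem_map]
      constructor
      · rintro ⟨x, rfl⟩
        obtain ⟨z, rfl⟩ := E.surjective x
        exact ⟨_, ⟨z, rfl⟩, (h1 N z).symm⟩
      · rintro ⟨_, ⟨z, rfl⟩, rfl⟩
        exact ⟨E z, h1 N z⟩
    rw [h3]
    exact LinearEquiv.finrank_map_eq E _
  unfold nblk
  rw [h2, h2, h2]

/-- the powers of a unipotent operator have the same Jordan type -/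
lemma nblk_pow [CharZero K] {u : End K V} (hu : IsNilpotent (u - 1)) {M : ℕ} (hM : 0 < M)
    (j : ℕ) : nblk (u ^ M - 1) j = nblk (u - 1) j := by
  set S : End K V := ∑ i ∈ range M, u ^ i with hS
  have h1 : S * (u - 1) = u ^ M - 1 := geom_sum_mul u M
  have hc : Commute (u - 1) S := by
    apply Commute.sum_right
    intro i _
    exact ((Commute.refl u).sub_left (Commute.one_left u)).pow_right i
  have hT : S - (M : K) • (1 : End K V) =
      (∑ i ∈ range M, ∑ l ∈ range i, u ^ l) * (u - 1) := by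
    rw [Finset.sum_mul, hS]
    have : (M : K) • (1 : End K V) = ∑ i ∈ range M, (1 : End K V) := by
      rw [Finset.sum_const, card_range, Nat.cast_smul_eq_nsmul]
    rw [this, ← Finset.sum_sub_distrib]
    exact Finset.sum_congr rfl fun i _ => (geom_sum_mul u i).symm
  have hnil : IsNilpotent (S - (M : K) • (1 : End K V)) := by
    rw [hT]
    refine Commute.isNilpotent_mul_left ?_ hu
    apply Commute.sum_left
    intro i _
    apply Commute.sum_left
    intro l _
    exact ((Commute.refl u).sub_right (Commute.one_right u)).pow_left l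
  have hMne : (M : K) ≠ 0 := Nat.cast_ne_zero.2 hM.ne'
  have hunitM : IsUnit ((M : K) • (1 : End K V)) := by
    refine ⟨⟨(M : K) • 1, (M : K)⁻¹ • 1, ?_, ?_⟩, rfl⟩
    · rw [smul_mul_smul_comm, one_mul, mul_inv_cancel₀ hMne, one_smul]
    · rw [smul_mul_smul_comm, one_mul, inv_mul_cancel₀ hMne, one_smul]
  have hSu : IsUnit S := by
    have h2 := hnil.isUnit_add_left_of_commute hunitM
      (((Commute.one_right _).smul_right _))
    rwa [add_sub_cancel] at h2
  have h3 : ∀ n : ℕ, finrank K (LinearMap.range ((u ^ M - 1) ^ n)) =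
      finrank K (LinearMap.range ((u - 1) ^ n)) := by
    intro n
    rw [← h1, ← hc.eq, hc.mul_pow]
    have h4 : LinearMap.range (S ^ n) = ⊤ := by
      obtain ⟨s, hs⟩ := hSu.pow n
      rw [LinearMap.range_eq_top]
      intro x
      refine ⟨(↑(s⁻¹ : (End K V)ˣ) : End K V) x, ?_⟩
      rw [← Module.End.mul_apply, ← hs, Units.mul_inv, Module.End.one_apply]
    have h5 : LinearMap.range ((u - 1) ^ n * S ^ n) = LinearMap.range ((u - 1) ^ n) :=
      LinearMap.range_comp_of_range_eq_top _ h4
    rw [h5]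
  unfold nblk
  rw [h3, h3, h3]

omit [Module.Finite K V] in
lemma nil_pow {u : End K V} (hu : IsNilpotent (u - 1)) (M : ℕ) : IsNilpotent (u ^ M - 1) := by
  have h1 : u ^ M - 1 = (∑ i ∈ range M, u ^ i) * (u - 1) := (geom_sum_mul u M).symm
  rw [h1]
  refine Commute.isNilpotent_mul_left ?_ hu
  apply Commute.sum_left
  intro i _
  exact ((Commute.refl u).sub_right (Commute.one_right u)).pow_left i

omit [Module.Finite K V] in
lemma ker_pow [CharZero K] {u : End K V} (hu : IsNilpotent (u - 1)) {M : ℕ} (hM : 0 < M) :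
    LinearMap.ker (u ^ M - 1) = LinearMap.ker (u - 1) := by
  ext x
  rw [LinearMap.mem_ker, LinearMap.mem_ker, LinearMap.sub_apply, LinearMap.sub_apply,
    Module.End.one_apply, sub_eq_zero, sub_eq_zero]
  constructor
  · intro h
    exact Pool.Agent.L7h89.RL.fix_of_pow hu hM h
  · intro h
    have h3 : ∀ i : ℕ, (u ^ i) x = x := by
      intro i
      induction i with
      | zero => rfl
      | succ i ih => rw [pow_succ, Module.End.mul_apply, h, ih]
    exact h3 M

end Nil

section Corner

variable {K : Type*} [Field K] {V : Type*} [AddCommGroup V] [Module K V]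

lemma finrank_rs_pow (F e : End K V) (h : F * e = e * F) (j : ℕ) :
    finrank K (LinearMap.range ((rs F e h - 1) ^ j)) =
      finrank K (LinearMap.range ((F - 1) ^ j * e)) := by
  have h4 : (LinearMap.range ((rs F e h - 1) ^ j)).map (LinearMap.range e).subtype =
      LinearMap.range ((F - 1) ^ j * e) := by
    ext x
    rw [Submodule.mem_map]
    constructor
    · rintro ⟨_, ⟨z, rfl⟩, rfl⟩
      obtain ⟨y, hy⟩ := z.2
      refine ⟨y, ?_⟩
      rw [Submodule.subtype_apply, rs_sub_pow_coe, ← hy]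
      rfl
    · rintro ⟨y, rfl⟩
      refine ⟨((rs F e h - 1) ^ j) ⟨e y, ⟨y, rfl⟩⟩, ⟨_, rfl⟩, ?_⟩
      rw [Submodule.subtype_apply, rs_sub_pow_coe]
      rfl
  rw [← h4]
  exact (fmap_eq _ (Submodule.subtype_injective _)).symm

lemma finrank_sum [Module.Finite K V] {I : Type*} [Fintype I] [DecidableEq I] (e : I → End K V)
    (hee : ∀ i j, e i * e j = if i = j then e i else 0) (G : End K V)
    (hG : ∀ i, G * e i = e i * G) :
    finrank K (LinearMap.range (G * ∑ i, e i)) =
      ∑ i, finrank K (LinearMap.range (G * e i)) := by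
  let Ψ : (∀ i, LinearMap.range (G * e i)) →ₗ[K] V :=
    ∑ i, (LinearMap.range (G * e i)).subtype ∘ₗ LinearMap.proj i
  have hΨ : ∀ t, Ψ t = ∑ i, (t i : V) := by
    intro t
    simp only [Ψ, LinearMap.sum_apply]
    rfl
  have hproj : ∀ i j, ∀ x ∈ LinearMap.range (G * e i), e j x = if i = j then x else 0 := by
    rintro i j _ ⟨y, rfl⟩
    rw [hG, ← Module.End.mul_apply, ← mul_assoc, hee]
    by_cases h : i = j
    · subst h; simp
    · rw [if_neg (Ne.symm h), if_neg h, zero_mul, LinearMap.zero_apply]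
  have hinj : Function.Injective Ψ := by
    rw [← LinearMap.ker_eq_bot, LinearMap.ker_eq_bot']
    intro t ht
    rw [hΨ] at ht
    funext j
    apply Subtype.ext
    have h1 := congrArg (e j) ht
    rw [map_sum, map_zero, Finset.sum_eq_single j] at h1
    · rw [hproj j j _ (t j).2, if_pos rfl] at h1
      exact h1
    · intro i _ hij
      rw [hproj i j _ (t i).2, if_neg hij]
    · intro h; exact absurd (Finset.mem_univ _) h
  have hrange : LinearMap.range Ψ = LinearMap.range (G * ∑ i, e i) := by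
    apply le_antisymm
    · rintro _ ⟨t, rfl⟩
      rw [hΨ]
      have h1 : ∀ i, ∃ y, (G * e i) y = (t i : V) := fun i => (t i).2
      choose y hy using h1
      refine ⟨∑ j, e j (y j), ?_⟩
      rw [Module.End.mul_apply, LinearMap.sum_apply]
      have h2 : ∀ i, e i (∑ j, e j (y j)) = e i (y i) := by
        intro i
        rw [map_sum, Finset.sum_eq_single i]
        · rw [← Module.End.mul_apply, hee, if_pos rfl]
        · intro j _ hj
          rw [← Module.End.mul_apply, hee, if_neg (Ne.symm hj), LinearMap.zero_apply]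
        · intro h; exact absurd (Finset.mem_univ _) h
      rw [Finset.sum_congr rfl fun i _ => h2 i, map_sum]
      exact Finset.sum_congr rfl fun i _ => hy i
    · rintro _ ⟨y, rfl⟩
      refine ⟨fun i => ⟨(G * e i) y, ⟨y, rfl⟩⟩, ?_⟩
      rw [hΨ, Finset.mul_sum, LinearMap.sum_apply]
  have h1 := LinearMap.finrank_range_of_inj hinj
  rw [hrange, Module.finrank_pi_fintype] at h1
  exact h1

variable [Module.Finite K V] [CharZero K] {B : Subalgebra K (End K V)} {e₀ : End K V}

lemma rad_nil {x : End K V} (hx : x ∈ rad B) : IsNilpotent x := by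
  obtain ⟨N, hN⟩ := exists_nilp B
  refine ⟨N, ?_⟩
  have := hN (List.replicate N x) (fun y hy => by rw [List.eq_of_mem_replicate hy]; exact hx)
    (List.length_replicate)
  rwa [List.prod_replicate] at this

lemma finrank_conn {ei ej u v G : End K V} (hG : ∀ x ∈ B, G * x = x * G) (hu : u ∈ B)
    (hei : ei * ei = ei) (h1 : ei * u = u) (h3 : ej * v = v) (h5 : u * v - ei ∈ rad B) :
    finrank K (LinearMap.range (G * ei)) ≤ finrank K (LinearMap.range (G * ej)) := by
  have hn := (rad_nil h5).isUnit_one_add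
  set n := u * v - ei with hndef
  have huv : u * v = ei * (1 + n) := by
    rw [mul_add, mul_one, hndef, mul_sub, hei, ← mul_assoc, h1]; abel
  have h6 : LinearMap.range (1 + n) = ⊤ := by
    obtain ⟨s, hs⟩ := hn
    rw [LinearMap.range_eq_top]
    intro x
    refine ⟨(↑(s⁻¹ : (End K V)ˣ) : End K V) x, ?_⟩
    rw [← Module.End.mul_apply, ← hs, Units.mul_inv, Module.End.one_apply]
  have h7 : LinearMap.range (G * (u * v)) = LinearMap.range (G * ei) := by
    rw [huv, ← mul_assoc]
    exact LinearMap.range_comp_of_range_eq_top _ h6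
  rw [← h7]
  have h8 : G * (u * v) = u ∘ₗ (G * ej) ∘ₗ v := by
    have : G * (u * v) = u * ((G * ej) * v) := by
      rw [mul_assoc G, h3, ← mul_assoc, hG u hu, mul_assoc]
    exact this
  rw [h8]
  exact finrank_range_comp_comp_le _ _ _

lemma one_pow_comm {F : End K V} (hF : ∀ x ∈ B, F * x = x * F) (j : ℕ) :
    ∀ x ∈ B, (F - 1) ^ j * x = x * (F - 1) ^ j := by
  intro x hx
  have : Commute (F - 1) x := (show Commute F x from hF x hx).sub_left (Commute.one_left x)
  exact (this.pow_left j).eq

lemma e_mul_i (w : Wde B e₀) (i : w.I) : e₀ * w.e i = w.e i := by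
  have h1 := congrArg (fun z => z * w.e i) w.e_sum
  simp only [Finset.sum_mul, w.e_mul] at h1
  rw [Finset.sum_ite_eq' Finset.univ i, if_pos (Finset.mem_univ _)] at h1
  exact h1.symm

lemma nil_i (w : Wde B e₀) {F : End K V} (hF : ∀ x ∈ B, F * x = x * F) (h : F * e₀ = e₀ * F)
    (hnil : IsNilpotent (rs F e₀ h - 1)) (i : w.I) :
    IsNilpotent (rs F (w.e i) (hF _ (w.e_mem i)) - 1) := by
  obtain ⟨M, hM⟩ := hnil
  refine ⟨M, ?_⟩
  apply LinearMap.ext
  intro x
  apply Subtype.ext
  rw [rs_sub_pow_coe]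
  obtain ⟨y, hy⟩ := x.2
  have h1 : (x : V) ∈ LinearMap.range e₀ := ⟨w.e i y, by
    rw [← hy, ← Module.End.mul_apply, e_mul_i]⟩
  have h2 := congrArg (fun f => ((f ⟨x, h1⟩ : LinearMap.range e₀) : V)) hM
  rw [rs_sub_pow_coe] at h2
  exact h2

/-- The multiplicities are bounded by the numbers of Jordan blocks. -/
theorem mult_le (w : Wde B e₀) {F : End K V} (hF : ∀ x ∈ B, F * x = x * F) (h : F * e₀ = e₀ * F)
    (hnil : IsNilpotent (rs F e₀ h - 1)) {H : ℤ}
    (hH : ∀ j, 1 ≤ j → nblk (rs F e₀ h - 1) j ≤ H) (c : w.C) : (w.m c : ℤ) ≤ H := by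
  have hNi := nil_i w hF h hnil
  have hnt : ∀ i, Nontrivial (LinearMap.range (w.e i)) := by
    intro i
    rw [Submodule.nontrivial_iff_ne_bot]
    intro h0
    exact w.e_ne i (LinearMap.range_eq_bot.1 h0)
  have := hnt (w.rep c)
  obtain ⟨j, hj1, hj2⟩ := exists_blk (hNi (w.rep c))
  refine le_trans ?_ (hH j hj1)
  have hsum : ∀ l : ℕ, (finrank K (LinearMap.range ((rs F e₀ h - 1) ^ l)) : ℤ) =
      ∑ i, (finrank K (LinearMap.range
        ((rs F (w.e i) (hF _ (w.e_mem i)) - 1) ^ l)) : ℤ) := by
    intro l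
    rw [finrank_rs_pow]
    have h1 := finrank_sum w.e w.e_mul ((F - 1) ^ l)
      (fun i => one_pow_comm hF l _ (w.e_mem i))
    rw [w.e_sum] at h1
    rw [h1]
    push_cast
    exact Finset.sum_congr rfl fun i _ => by rw [finrank_rs_pow]
  have hblk : nblk (rs F e₀ h - 1) j =
      ∑ i, nblk (rs F (w.e i) (hF _ (w.e_mem i)) - 1) j := by
    unfold nblk
    rw [hsum, hsum, hsum, Finset.mul_sum, ← Finset.sum_add_distrib, ← Finset.sum_sub_distrib]
  have heq : ∀ i, w.κ i = c → nblk (rs F (w.e i) (hF _ (w.e_mem i)) - 1) j =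
      nblk (rs F (w.e (w.rep c)) (hF _ (w.e_mem _)) - 1) j := by
    intro i hi
    obtain ⟨u, hu, v, hv, h1, h2, h3, h4, h5, h6⟩ := w.conn i (w.rep c) (by rw [hi, w.κ_rep])
    have hr : ∀ l : ℕ, finrank K (LinearMap.range ((rs F (w.e i) (hF _ (w.e_mem i)) - 1) ^ l)) =
        finrank K (LinearMap.range
          ((rs F (w.e (w.rep c)) (hF _ (w.e_mem _)) - 1) ^ l)) := by
      intro l
      rw [finrank_rs_pow, finrank_rs_pow]
      have hcm := one_pow_comm hF l
      exact le_antisymm
        (finrank_conn hcm hu (by rw [w.e_mul, if_pos rfl]) h1 h3 h5)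
        (finrank_conn hcm hv (by rw [w.e_mul, if_pos rfl]) h3 h1 h6)
    unfold nblk
    rw [hr, hr, hr]
  rw [hblk]
  calc (w.m c : ℤ) = ∑ i ∈ univ.filter (fun i => w.κ i = c), (1 : ℤ) := by
        rw [Finset.sum_const, nsmul_eq_mul, mul_one]; rfl
    _ ≤ ∑ i ∈ univ.filter (fun i => w.κ i = c),
        nblk (rs F (w.e i) (hF _ (w.e_mem i)) - 1) j := by
        refine Finset.sum_le_sum fun i hi => ?_
        rw [heq i (Finset.mem_filter.1 hi).2]
        exact hj2
    _ ≤ ∑ i, nblk (rs F (w.e i) (hF _ (w.e_mem i)) - 1) j :=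
        Finset.sum_le_sum_of_subset_of_nonneg (Finset.filter_subset _ _)
          (fun i _ _ => nblk_nonneg _ hj1)

/-- The length is bounded by the number of fixed vectors. -/
theorem card_le_ker (w : Wde B e₀) {F : End K V} (hF : ∀ x ∈ B, F * x = x * F)
    (h : F * e₀ = e₀ * F) (hnil : IsNilpotent (rs F e₀ h - 1)) :
    Fintype.card w.I ≤ finrank K (LinearMap.ker (rs F e₀ h - 1)) := by
  have hNi := nil_i w hF h hnil
  have hex : ∀ i, ∃ y : V, y ≠ 0 ∧ F y = y ∧ w.e i y = y := by
    intro i
    have hnt : Nontrivial (LinearMap.range (w.e i)) := by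
      rw [Submodule.nontrivial_iff_ne_bot]
      intro h0
      exact w.e_ne i (LinearMap.range_eq_bot.1 h0)
    have h5 := ker_ne_bot (hNi i)
    obtain ⟨y, hy, hy0⟩ := (Submodule.ne_bot_iff _).1 h5
    refine ⟨y, fun h0 => hy0 (Subtype.ext h0), ?_, ?_⟩
    · rw [LinearMap.mem_ker, LinearMap.sub_apply, Module.End.one_apply, sub_eq_zero] at hy
      exact congrArg Subtype.val hy
    · obtain ⟨z, hz⟩ := y.2
      rw [← hz, ← Module.End.mul_apply, w.e_mul, if_pos rfl]
  choose y hy0 hFy hey using hex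
  have hr : ∀ i, y i ∈ LinearMap.range e₀ := by
    intro i
    refine ⟨y i, ?_⟩
    nth_rw 1 [← hey i]
    rw [← Module.End.mul_apply, e_mul_i, hey]
  have hk : ∀ i, (⟨y i, hr i⟩ : LinearMap.range e₀) ∈ LinearMap.ker (rs F e₀ h - 1) := by
    intro i
    rw [LinearMap.mem_ker, LinearMap.sub_apply, Module.End.one_apply, sub_eq_zero]
    exact Subtype.ext (hFy i)
  have hli : LinearIndependent K (fun i : w.I =>
      (⟨⟨y i, hr i⟩, hk i⟩ : LinearMap.ker (rs F e₀ h - 1))) := by
    rw [Fintype.linearIndependent_iff]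
    intro g hg j
    have h0 := congrArg (fun z => (LinearMap.range e₀).subtype
      ((LinearMap.ker (rs F e₀ h - 1)).subtype z)) hg
    simp only [map_sum, map_smul, Submodule.subtype_apply, map_zero] at h0
    have h1 := congrArg (w.e j) h0
    rw [map_sum, map_zero, Finset.sum_eq_single j] at h1
    · rw [map_smul, hey] at h1
      exact (smul_eq_zero.1 h1).resolve_right (hy0 j)
    · intro i _ hij
      rw [map_smul, ← hey i, ← Module.End.mul_apply, w.e_mul, if_neg (Ne.symm hij),
        LinearMap.zero_apply, smul_zero]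
    · intro h; exact absurd (Finset.mem_univ _) h
  exact hli.fintype_card_le_finrank

end Corner

section Tensor

universe v w

/-- Jordan blocks of an operator which is conjugate to a tensor product. -/
theorem blk_tensor (hBLT : S_BLT.{v, w}) {K : Type v} [Field K] [CharZero K] {U B V' : Type w}
    [AddCommGroup U] [Module K U] [Module.Finite K U] [AddCommGroup B] [Module K B]
    [Module.Finite K B] [AddCommGroup V'] [Module K V'] (b : End K B) (u : End K U)
    (E : (B ⊗[K] U) ≃ₗ[K] V') (g : End K V')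
    (h : g ∘ₗ E.toLinearMap = E.toLinearMap ∘ₗ TensorProduct.map b u)
    (hb : IsNilpotent (b - 1)) (hu : IsNilpotent (u - 1)) (H : ℤ)
    (hH : ∀ j, 1 ≤ j → nblk (b - 1) j ≤ H) (j : ℕ) (hj : 1 ≤ j) :
    nblk (g - 1) j ≤ finrank K U * H := by
  set f : End K (B ⊗[K] U) := TensorProduct.map b u with hf
  set f' : End K (U ⊗[K] B) := TensorProduct.map u b with hf'
  have h1 : nblk (g - 1) j = nblk (f - 1) j := nblk_conj E h j
  have h2 : nblk (f' - 1) j = nblk (f - 1) j := by
    refine nblk_conj (TensorProduct.comm K B U) ?_ j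
    apply TensorProduct.ext'
    intro x y
    rfl
  rw [h1, ← h2]
  exact hBLT K U B u b hu hb H hH j hj

end Tensor

end Pool.Agent.L7h73.RL
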