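import Pool.Agent.L7h85.RL.G1

/-!
# The objects consisting of generalised Tate classes are stable
-/

set_option linter.unusedVariables false
set_option linter.unusedSectionVars false

open CategoryTheory AlgebraicGeometry CategoryTheory.Limits

universe u v

namespace Pool.Agent.L7h73.RL

open Pool.Agent.H914 Pool.Agent.H447 Pool.Agent.W534 VarClass Obj WeilCohomology Module
open Pool.Agent.Y163 Pool.Agent.L7h85.RL

variable {k : Type u} [Field k] {𝒱 : VarClass k} {ops : CycleOps 𝒱}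
  {W : WeilCohomology.{u, v} ops} {X Y Z : 𝒱.Obj} {p : ℕ} (Φ : FrobSystem W p)

/-! ### Products of generalised eigenvectors -/

lemma gen_prod {s : ℕ} (a b : W.K) : ∀ (N n m : ℕ) (x y : W.H Z), n + m ≤ N →
    ((frob Φ Z s - a • (1 : Module.End W.K (W.H Z))) ^ n) x = 0 →
    ((frob Φ Z s - b • (1 : Module.End W.K (W.H Z))) ^ m) y = 0 →
    ((frob Φ Z s - (a * b) • (1 : Module.End W.K (W.H Z))) ^ N) (x * y) = 0 := by
  intro N
  induction N with
  | zero =>
    intro n m x y hnm hx hy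
    have hn : n = 0 := by omega
    subst hn
    rw [pow_zero, Module.End.one_apply] at hx
    rw [hx, zero_mul, map_zero]
  | succ N ih =>
    intro n m x y hnm hx hy
    rcases n with _ | n
    · rw [pow_zero, Module.End.one_apply] at hx
      rw [hx, zero_mul, map_zero]
    rcases m with _ | m
    · rw [pow_zero, Module.End.one_apply] at hy
      rw [hy, mul_zero, map_zero]
    have e1 : (frob Φ Z s - (a * b) • (1 : Module.End W.K (W.H Z))) (x * y) =
        (frob Φ Z s - a • (1 : Module.End W.K (W.H Z))) x * frob Φ Z s y +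
          a • (x * (frob Φ Z s - b • (1 : Module.End W.K (W.H Z))) y) := by
      simp only [LinearMap.sub_apply, LinearMap.smul_apply, Module.End.one_apply, frob_apply,
        map_mul, sub_mul, mul_sub, smul_sub, smul_mul_assoc, mul_smul_comm, smul_smul]
      abel
    rw [pow_succ, Module.End.mul_apply, e1, map_add, map_smul]
    have h1 := ih n (m + 1) _ (frob Φ Z s y) (by omega)
      (by rw [pow_succ, Module.End.mul_apply] at hx; exact hx)
      (by
        have hc : Commute (frob Φ Z s) (frob Φ Z s - b • (1 : Module.End W.K (W.H Z))) :=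
          (Commute.refl _).sub_right ((Commute.one_right _).smul_right _)
        rw [← Module.End.mul_apply, ← (hc.pow_right (m + 1)).eq, Module.End.mul_apply, hy,
          map_zero])
    have h2 := ih (n + 1) m x _ (by omega) hx
      (by rw [pow_succ, Module.End.mul_apply] at hy; exact hy)
    rw [h1, h2, smul_zero, add_zero]

lemma mul_genTate {s i j : ℕ} {x y : W.H Z} (hx : x ∈ genTate Φ Z s i)
    (hy : y ∈ genTate Φ Z s j) : x * y ∈ genTate Φ Z s (i + j) := by
  obtain ⟨⟨n, hn⟩, hxg⟩ := (mem_genTate Φ).1 hx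
  obtain ⟨⟨m, hm⟩, hyg⟩ := (mem_genTate Φ).1 hy
  refine (mem_genTate Φ).2 ⟨⟨n + m, ?_⟩, ?_⟩
  · rw [pow_add (card Φ Z s : W.K)]
    exact gen_prod Φ _ _ (n + m) n m x y le_rfl hn hm
  · have := W.mul_mem hxg hyg
    rwa [show 2 * i + 2 * j = 2 * (i + j) by ring] at this

lemma mul_genU {i j : ℕ} {x y : W.H Z} (hx : x ∈ genU Φ Z i) (hy : y ∈ genU Φ Z j) :
    x * y ∈ genU Φ Z (i + j) := by
  obtain ⟨s, hs, hx⟩ := (mem_genU Φ).1 hx
  obtain ⟨t, ht, hy⟩ := (mem_genU Φ).1 hy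
  exact (mem_genU Φ).2 ⟨s * t, Nat.mul_pos hs ht,
    mul_genTate Φ (genTate_mono Φ s t i hx) (genTate_mono' Φ t s j hy)⟩

/-- External products of generalised Tate classes. -/
lemma ext_genU {i j : ℕ} {e : Module.End W.K (W.H Y)} {f : Module.End W.K (W.H Z)}
    (he : LinearMap.range e ≤ genU Φ Y i) (hf : LinearMap.range f ≤ genU Φ Z j) :
    LinearMap.range (extOp W e f) ≤ genU Φ (Y.prod Z) (i + j) := by
  rintro _ ⟨x, rfl⟩
  refine W.kunneth_induction (p := fun x => extOp W e f x ∈ genU Φ (Y.prod Z) (i + j)) ?_ ?_ x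
  · intro a b ha hb
    rw [map_add]
    exact Submodule.add_mem _ ha hb
  · intro _ _ a _ b _
    rw [extOp_tmul]
    exact mul_genU Φ ((genFam Φ).map (fst Y Z) (he ⟨a, rfl⟩))
      ((genFam Φ).map (snd Y Z) (hf ⟨b, rfl⟩))

lemma allPar [IsAlgClosed W.K] (hp : 1 < p) (σ : W.K →+* ℂ) (hRH : ∀ Z, RiemannHyp Φ σ Z) :
    AllPar W := fun Z => par_mem_of_RH Φ hp σ (hRH Z)

/-- An idempotent which is the sum of two non-zero orthogonal idempotents is not simple. -/
lemma two_le_mu {V K : Type*} [Field K] [CharZero K] [AddCommGroup V] [Module K V]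
    [Module.Finite K V] (P Q : Submodule K (V →ₗ[K] V)) {f0 f1 : End K V}
    (h0P : f0 ∈ P) (h1P : f1 ∈ P) (h0Q : f0 ∈ Q) (h1Q : f1 ∈ Q) (h00 : f0 * f0 = f0)
    (h11 : f1 * f1 = f1) (h01 : f0 * f1 = 0) (h10 : f1 * f0 = 0) (hn0 : f0 ≠ 0) (hn1 : f1 ≠ 0) :
    2 ≤ mu P Q (f0 + f1) (f0 + f1) := by
  have h := le_rank_of_dual (bt P Q (f0 + f1) (f0 + f1)) (ι := Bool)
    (fun b => if b then ⟨f1, h1P⟩ else ⟨f0, h0P⟩) (fun b => if b then ⟨f1, h1Q⟩ else ⟨f0, h0Q⟩)
    (fun b => if b then LinearMap.trace K V f1 else LinearMap.trace K V f0) ?_ ?_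
  · simpa [mu] using h
  · intro b
    cases b
    · simp only [Bool.false_eq_true, if_false]
      rw [Y163.trace_idem h00]
      exact rank_idem_ne hn0
    · simp only [if_true]
      rw [Y163.trace_idem h11]
      exact rank_idem_ne hn1
  · intro a b
    rw [bt_apply]
    have key : ∀ u v : End K V, v ∘ₗ (f0 + f1) ∘ₗ u ∘ₗ (f0 + f1) =
        v * ((f0 + f1) * (u * (f0 + f1))) := fun _ _ => rfl
    cases a <;> cases b <;>
      simp only [Bool.false_eq_true, if_false, if_true, key, mul_add, add_mul, h00, h11, h01, h10,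
        add_zero, zero_add, map_zero, reduceCtorEq]

theorem s_STA (σ : W.K →+* ℂ) (hPRJ : S_PRJ Φ σ) : S_STA Φ σ := by
  intro hp hK hRH 𝒮 hG
  have hpar := allPar Φ hp σ hRH
  refine ⟨?_, ?_, ?_⟩
  · rintro A B ⟨i, hi, hA⟩ ⟨j, hj, hB⟩
    rw [hG.ten_eq]
    refine ⟨i + j, ?_, ext_genU Φ hA hB⟩
    change (A.Z.prod B.Z).dim = _
    rw [dim_prod]; omega
  · rintro A ⟨i, hi, hA⟩
    rw [hG.dual_eq]
    refine ⟨i, hi, ?_⟩
    change LinearMap.range (adj A.e) ≤ genU Φ A.Z i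
    obtain ⟨π, hπ, hππ, hπr, hπc, hπa⟩ := hPRJ hp hK hRH A.Z i hi
    have h1 : π * A.e = A.e := by
      apply LinearMap.ext
      intro x
      have h2 : A.e x ∈ LinearMap.range π := by rw [hπr]; exact hA ⟨x, rfl⟩
      obtain ⟨y, hy⟩ := h2
      rw [Module.End.mul_apply, ← hy, ← Module.End.mul_apply, hππ]
    have h2 : adj A.e = π * adj A.e := by
      have h3 := congrArg adj h1
      rw [adj_mul, hπa, hπc _ (adj_mem A.mem)] at h3
      exact h3.symm
    rw [← hπr, h2]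
    rintro _ ⟨x, rfl⟩
    exact ⟨_, rfl⟩
  · rintro A S ⟨q, hq, hA⟩ hSS hSA
    rw [hG.h_eq] at hSS hSA
    have hev : (S.Z.dim + A.Z.dim) % 2 = 0 := by
      by_contra hcon
      rw [gh, if_neg hcon] at hSA
      exact hSA rfl
    obtain ⟨q', hq'⟩ : ∃ q', S.Z.dim = 2 * q' := ⟨S.Z.dim / 2, by omega⟩
    refine ⟨q', hq', ?_⟩
    obtain ⟨π, hπ, hππ, hπr, hπc, hπa⟩ := hPRJ hp hK hRH S.Z q' hq'
    have hmuS := s_mu hpar S S 0 (by ring)
    have hmuA := s_mu hpar S A ((q : ℤ) - q') (by rw [hq, hq']; push_cast; ring)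
    have hc : S.e * π = π * S.e := hπc _ S.mem
    -- the two summands
    set f0 : Module.End W.K (W.H S.Z) := S.e * π with hf0
    set f1 : Module.End W.K (W.H S.Z) := S.e - S.e * π with hf1
    have hsum : f0 + f1 = S.e := by rw [hf0, hf1]; abel
    have h0m : f0 ∈ KOp W S.Z S.Z 0 := (KAlg W S.Z).mul_mem S.mem hπ
    have h1m : f1 ∈ KOp W S.Z S.Z 0 := Submodule.sub_mem _ S.mem h0m
    have h00 : f0 * f0 = f0 := by
      rw [hf0, mul_assoc, ← mul_assoc π, ← hc, mul_assoc, hππ, ← mul_assoc, S.idem]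
    have he0 : S.e * f0 = f0 := by rw [hf0, ← mul_assoc, S.idem]
    have h0e : f0 * S.e = f0 := by rw [hf0, mul_assoc, ← hc, ← mul_assoc, S.idem]
    have h01 : f0 * f1 = 0 := by
      rw [hf1, ← hf0, mul_sub, h0e, h00, sub_self]
    have h10 : f1 * f0 = 0 := by
      rw [hf1, ← hf0, sub_mul, he0, h00, sub_self]
    have h11 : f1 * f1 = f1 := by
      nth_rw 1 [hf1]
      rw [← hf0, sub_mul, h01, sub_zero, hf1, ← hf0, mul_sub, S.idem, he0]
    -- the first one is not zero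
    have hn0 : f0 ≠ 0 := by
      intro h0
      apply hSA
      rw [hmuA, mu]
      have h2 : bt (KOp W S.Z A.Z ((q : ℤ) - q')) (KOp W A.Z S.Z (-((q : ℤ) - q'))) A.e S.e = 0 := by
        apply LinearMap.ext
        intro x
        apply LinearMap.ext
        intro y
        rw [bt_apply, LinearMap.zero_apply, LinearMap.zero_apply]
        have h3 : ∀ w, (y : W.H A.Z →ₗ[W.K] W.H S.Z) (A.e w) ∈ LinearMap.range π := by
          intro w
          rw [hπr]
          exact (genFam Φ).stable y.2 (by ring) (hA ⟨w, rfl⟩)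
        have h4 : π * ((y : W.H A.Z →ₗ[W.K] W.H S.Z) ∘ₗ A.e ∘ₗ
            (x : W.H S.Z →ₗ[W.K] W.H A.Z) ∘ₗ S.e) =
            (y : W.H A.Z →ₗ[W.K] W.H S.Z) ∘ₗ A.e ∘ₗ (x : W.H S.Z →ₗ[W.K] W.H A.Z) ∘ₗ S.e := by
          apply LinearMap.ext
          intro w
          obtain ⟨v, hv⟩ := h3 ((x : W.H S.Z →ₗ[W.K] W.H A.Z) (S.e w))
          simp only [Module.End.mul_apply, LinearMap.comp_apply]
          rw [← hv, ← Module.End.mul_apply, hππ]
        rw [← h4, LinearMap.trace_mul_comm]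
        have h5 : ((y : W.H A.Z →ₗ[W.K] W.H S.Z) ∘ₗ A.e ∘ₗ
            (x : W.H S.Z →ₗ[W.K] W.H A.Z) ∘ₗ S.e) * π =
            ((y : W.H A.Z →ₗ[W.K] W.H S.Z) ∘ₗ A.e ∘ₗ
              (x : W.H S.Z →ₗ[W.K] W.H A.Z)) ∘ₗ f0 := rfl
        rw [h5, h0, LinearMap.comp_zero, map_zero]
      rw [h2, LinearMap.range_zero, finrank_bot]
    -- the second one is zero
    have hn1 : f1 = 0 := by
      by_contra hn1
      have h2 := two_le_mu (KOp W S.Z S.Z 0) (KOp W S.Z S.Z (-0)) h0m h1m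
        (KOp.cast h0m (by ring)) (KOp.cast h1m (by ring)) h00 h11 h01 h10 hn0 hn1
      rw [hsum, ← hmuS, hSS] at h2
      omega
    have h3 : S.e = π * S.e := by
      rw [← hc, ← hsum, hn1, add_zero]
    rw [← hπr, h3]
    rintro _ ⟨x, rfl⟩
    exact ⟨_, rfl⟩

end Pool.Agent.L7h73.RL
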