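import Pool.Agent.L7h73.RL.Prod
import Pool.Agent.L7h89.RL.Prj
import Pool.Agent.L7h85.RL.Geo2

/-!
# A power of the Frobenius endomorphism commutes with all correspondences
-/

set_option linter.unusedVariables false
set_option linter.unusedSectionVars false

open CategoryTheory AlgebraicGeometry CategoryTheory.Limits

universe u v

namespace Pool.Agent.L7h73.RL

open Pool.Agent.H914 Pool.Agent.H447 Pool.Agent.W534 VarClass Obj WeilCohomology Module
open Pool.Agent.Y163 Pool.Agent.L7h85.RL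

variable {k : Type u} [Field k] {𝒱 : VarClass k} {ops : CycleOps 𝒱}
  {W : WeilCohomology.{u, v} ops} {X Y Z : 𝒱.Obj} {p : ℕ} (Φ : FrobSystem W p)

lemma frob_mem (Z : 𝒱.Obj) (s : ℕ) : frob Φ Z s ∈ KOp W Z Z 0 := map_mem_KOp _

theorem s_FRC : S_FRC Φ := by
  intro Z
  obtain ⟨t0, ht0, h0⟩ := exists_span_eig Φ (Z.prod Z) Z.dim
  obtain ⟨s1, s2, s3, hs1, hs2, hs3, h12, h13, hfr⟩ := frob_prod Φ Z Z
  have h23 : s2 = s3 := Nat.eq_of_mul_eq_mul_right (Φ.e_pos Z) (h12.symm.trans h13)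
  subst h23
  refine ⟨s2 * t0, Nat.mul_pos hs2 ht0, fun m f hf => ?_⟩
  obtain ⟨c, hc, rfl⟩ := mem_KOp_iff.1 hf
  rw [add_zero] at hc
  set F := frob Φ Z (s2 * t0 * m) with hF
  have hFF : frob Φ (Z.prod Z) (s1 * (t0 * m)) = extOp W F F := by
    rw [hfr, hF, mul_assoc]
  have hcard : card Φ (Z.prod Z) (s1 * (t0 * m)) = card Φ Z (s2 * t0 * m) := by
    rw [card_eq_of Φ h12, mul_assoc]
  have h1 : frob Φ (Z.prod Z) (s1 * (t0 * m)) c =
      ((card Φ Z (s2 * t0 * m) : W.K) ^ Z.dim) • c := by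
    rw [← hcard]
    have h2 := span_eig_mul Φ (h0 c hc) m
    exact span_eig_mul' Φ h2 s1
  rw [hFF] at h1
  have h2 := corr_extOp (f := F) (h := F) (deg0_of_mem (adj_mem (frob_mem Φ Z _)))
    (deg0_of_mem (frob_mem Φ Z _)) c
  rw [h1, corr_smul] at h2
  set q : W.K := (card Φ Z (s2 * t0 * m) : W.K) ^ Z.dim with hq
  have hq0 : q ≠ 0 := pow_ne_zero _ (card_ne Φ _)
  have h3 : q • (W.corr c * F) = q • (F * W.corr c) := by
    have h4 : (q • W.corr c) * F = (F * W.corr c) * (Y163.adj F * F) := by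
      rw [h2]; rfl
    have h5 := Pool.Agent.L7h89.RL.adj_frob_mul (W := W) Φ (Z := Z) (s2 * t0 * m)
    rw [← hF, ← hq] at h5
    rw [h5, mul_smul_comm, mul_one, smul_mul_assoc] at h4
    exact h4
  have h6 := congrArg (fun x => q⁻¹ • x) h3
  simp only [smul_smul, inv_mul_cancel₀ hq0, one_smul] at h6
  exact h6.symm

end Pool.Agent.L7h73.RL
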